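import Pool.Agent.Lib.MP_270b6b_co.MC.Spec

/-!
MP_270b6b_co, module BND: in case (2) of MGB the set `R` misses few edges.
-/

set_option autoImplicit false

namespace Pool.Agent.Lib.MP_270b6b_co.MC

open Pool.Agent.Lib.MP_270b6b_co.MB

open Finset

namespace BNDM

variable {V : Type} [DecidableEq V] {C : SimpleGraph V}

lemma att {R D' U : Finset V} (hU : U ⊆ D') (h1 : ∀ u ∈ D', dg C R u ≤ 1)
    (hsum : ∑ u ∈ U, dg C R u = 2) : ∑ u ∈ D', dg C R u + U.card ≤ D'.card + 2 := by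
  have e1 : ∑ u ∈ D', dg C R u = ∑ u ∈ D' \ U, dg C R u + ∑ u ∈ U, dg C R u :=
    (sum_sdiff hU).symm
  have e2 : ∑ u ∈ D' \ U, dg C R u ≤ ∑ _u ∈ D' \ U, 1 :=
    sum_le_sum fun u hu => h1 u (mem_sdiff.1 hu).1
  have e3 := card_sdiff_add_card_eq_card hU
  simp only [sum_const, smul_eq_mul, mul_one] at e2
  omega

lemma att2 {R D' U : Finset V} (hU : U ⊆ D') (h1 : ∀ u ∈ D', dg C R u ≤ 1)
    (hsum : ∑ u ∈ U, dg C R u = 2) {u0 : V} (h0 : u0 ∈ D' \ U) (h00 : dg C R u0 = 0) :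
    ∑ u ∈ D', dg C R u + U.card + 1 ≤ D'.card + 2 := by
  have e1 : ∑ u ∈ D', dg C R u = ∑ u ∈ D' \ U, dg C R u + ∑ u ∈ U, dg C R u :=
    (sum_sdiff hU).symm
  have e4 : dg C R u0 + ∑ u ∈ (D' \ U).erase u0, dg C R u = ∑ u ∈ D' \ U, dg C R u :=
    add_sum_erase _ _ h0
  have e2 : ∑ u ∈ (D' \ U).erase u0, dg C R u ≤ ∑ _u ∈ (D' \ U).erase u0, 1 :=
    sum_le_sum fun u hu => h1 u (mem_sdiff.1 (mem_of_mem_erase hu)).1
  have e3 := card_sdiff_add_card_eq_card hU
  have e5 := card_erase_add_one h0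
  simp only [sum_const, smul_eq_mul, mul_one] at e2
  omega

end BNDM

theorem specBND : SpecBND := by
  classical
  intro V _ C w R D z0 D' U u1 hs hG hmin hsum hu1 hR1 hU1
  have hz : dg C R z0 ≤ 1 := hs.sit.h1 z0 hs.hz0
  have hD'D : ∀ u ∈ D', u ∈ D := by
    intro u hu
    rw [hs.hD'] at hu
    exact mem_of_mem_erase hu
  have h1 : ∀ u ∈ D', dg C R u ≤ 1 := fun u hu => hs.sit.h1 u (hD'D u hu)
  have hA := BNDM.att hG.sub h1 hsum
  have hc := hs.cnt
  have hcD := hs.cD'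
  have heD := hs.eD'
  have hw : w * (w + 1) = w * (w - 1) + 2 * w := by
    obtain ⟨j, rfl⟩ : ∃ j, w = j + 1 := ⟨w - 1, by omega⟩
    rw [Nat.add_sub_cancel]
    ring
  rw [hw] at hc
  generalize w * (w - 1) = W at hc ⊢
  generalize hAd : ∑ u ∈ D', dg C R u = A at hc hA
  refine ⟨by omega, fun h3 => ?_⟩
  by_cases hsm : e2 C D' + 4 ≤ 2 * w
  · omega
  · have hcore := hs.eC (by omega)
    have hu1D := hG.sub hu1
    have h2 := hcore u1 hu1D
    have h4 : dg C D' u1 = dg C U u1 + dg C (D' \ U) u1 := by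
      rw [← dg_union disjoint_sdiff, union_sdiff_of_subset hG.sub]
    obtain ⟨u0, hu0, hadj⟩ := one_le_dg_iff.1 (show 1 ≤ dg C (D' \ U) u1 by omega)
    have hu0D := (mem_sdiff.1 hu0).1
    have h00 : dg C R u0 = 0 := by
      by_contra hne
      have hgood : GoodU C R D' {u0, u1} := by
        refine ⟨⟨u0, mem_insert_self _ _⟩, ?_, ?_⟩
        · intro u hu
          rcases mem_insert.1 hu with rfl | hu
          · exact hu0D
          · rw [mem_singleton.1 hu]
            exact hu1D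
        · intro u hu
          rcases mem_insert.1 hu with rfl | hu
          · have : 1 ≤ dg C {u, u1} u :=
              one_le_dg_iff.2 ⟨u1, mem_insert_of_mem (mem_singleton_self _), hadj.symm⟩
            omega
          · rw [mem_singleton.1 hu]
            have : 1 ≤ dg C {u0, u1} u1 := one_le_dg_iff.2 ⟨u0, mem_insert_self _ _, hadj⟩
            omega
      have h5 := hmin _ hgood
      have h6 : ({u0, u1} : Finset V).card ≤ 2 := card_le_two
      omega
    have hA2 := BNDM.att2 hG.sub h1 hsum hu0 h00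
    rw [hAd] at hA2
    omega

end Pool.Agent.Lib.MP_270b6b_co.MC
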