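import Pool.Agent.Lib.MP_270b6b_co.MC.Spec

/-!
# MP_270b6b, `m = 2 n + 2`: from the complement graph back to the graph
-/

set_option autoImplicit false

namespace Pool.Agent.Lib.MP_270b6b_co.MC

open Pool.Agent.Lib.MP_270b6b_co.MB

open Finset

namespace GRAM

variable {V : Type} [DecidableEq V]

theorem card_split (S : Finset V) (v : V) (hv : v ∈ S) (p q : V → Prop) [DecidablePred p]
    [DecidablePred q] (h : ∀ u ∈ S, u ≠ v → (p u ↔ ¬ q u)) (hp : ¬ p v) (hq : ¬ q v) :
    (S.filter p).card + (S.filter q).card + 1 = S.card := by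
  have h1 : S = insert v (S.filter p ∪ S.filter q) := by
    ext u
    simp only [mem_insert, mem_union, mem_filter]
    constructor
    · intro hu
      by_cases h2 : u = v
      · exact Or.inl h2
      · by_cases h3 : q u
        · exact Or.inr (Or.inr ⟨hu, h3⟩)
        · exact Or.inr (Or.inl ⟨hu, (h u hu h2).2 h3⟩)
    · rintro (h2 | h2 | h2)
      · rw [h2]; exact hv
      · exact h2.1
      · exact h2.1
  have h2 : v ∉ S.filter p ∪ S.filter q := by
    rw [mem_union, mem_filter, mem_filter]
    rintro (h3 | h3)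
    · exact hp h3.2
    · exact hq h3.2
  have h3 : Disjoint (S.filter p) (S.filter q) := by
    rw [disjoint_left]
    intro u hu hu'
    rw [mem_filter] at hu hu'
    have hne : u ≠ v := by
      rintro rfl
      exact hp hu.2
    exact (h u hu.1 hne).1 hu.2 hu'.2
  have h4 := congrArg Finset.card h1
  rw [card_insert_of_notMem h2, card_union_of_disjoint h3] at h4
  omega

/-- The neighbours of `v` in `S` in a graph and in its complement. -/
theorem dg_compl (G : SimpleGraph V) (S : Finset V) (v : V) (hv : v ∈ S) :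
    dg G S v + dg Gᶜ S v + 1 = S.card := by
  unfold dg
  refine @card_split V _ S v hv (fun u => G.Adj v u) (fun u => Gᶜ.Adj v u)
    (fun u => Classical.propDecidable _) (fun u => Classical.propDecidable _) ?_
    (G.loopless.irrefl v) (Gᶜ.loopless.irrefl v)
  intro u _ hne
  rw [SimpleGraph.compl_adj]
  constructor
  · intro h h'
    exact h'.2 h
  · intro h
    by_contra h'
    exact h ⟨hne.symm, h'⟩

omit [DecidableEq V] in
/-- Twice the number of edges. -/
theorem e2_univ [Fintype V] (G : SimpleGraph V) : e2 G univ = 2 * G.edgeSet.ncard := by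
  classical
  have h1 : G.edgeSet.ncard = G.edgeFinset.card := by
    rw [← SimpleGraph.coe_edgeFinset, Set.ncard_coe_finset]
  rw [h1, ← SimpleGraph.sum_degrees_eq_twice_card_edges]
  unfold e2 dg
  refine sum_congr rfl fun v _ => ?_
  rw [← SimpleGraph.card_neighborFinset_eq_degree]
  congr 1
  ext u
  simp

/-- A partition with small degrees inside the parts gives the decomposition. -/
theorem decomp {m k : ℕ} (G : SimpleGraph (Fin m)) (A : Finset (Fin m))
    (hA1 : ∀ v ∈ A, dg G A v ≤ k) (hA2 : ∀ v, v ∉ A → dg G (univ \ A) v ≤ k) :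
    ∃ B D : SimpleGraph (Fin m), B.Colorable 2 ∧ (∀ v, (D.neighborSet v).ncard ≤ k) ∧ G = B ⊔ D := by
  classical
  let B : SimpleGraph (Fin m) :=
    { Adj := fun a b => G.Adj a b ∧ ¬ (a ∈ A ↔ b ∈ A)
      symm := ⟨fun a b h => ⟨h.1.symm, fun h' => h.2 h'.symm⟩⟩
      loopless := ⟨fun a h => h.2 Iff.rfl⟩ }
  let D : SimpleGraph (Fin m) :=
    { Adj := fun a b => G.Adj a b ∧ (a ∈ A ↔ b ∈ A)
      symm := ⟨fun a b h => ⟨h.1.symm, h.2.symm⟩⟩
      loopless := ⟨fun a h => G.irrefl h.1⟩ }
  refine ⟨B, D, ?_, fun v => ?_, ?_⟩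
  · refine ⟨SimpleGraph.Coloring.mk (fun v => if v ∈ A then 0 else 1) ?_⟩
    intro a b hab hc
    apply hab.2
    by_cases ha : a ∈ A <;> by_cases hb : b ∈ A <;> simp_all
  · by_cases hv : v ∈ A
    · have h1 : D.neighborSet v = ((A.filter (fun u => G.Adj v u) : Finset (Fin m)) : Set (Fin m)) := by
        ext w
        simp only [SimpleGraph.mem_neighborSet, Finset.coe_filter, Set.mem_ofPred_eq]
        constructor
        · intro h
          exact ⟨h.2.1 hv, h.1⟩
        · intro h
          exact ⟨h.2, fun _ => h.1, fun _ => hv⟩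
      rw [h1, Set.ncard_coe_finset]
      exact hA1 v hv
    · have h1 : D.neighborSet v =
          (((univ \ A).filter (fun u => G.Adj v u) : Finset (Fin m)) : Set (Fin m)) := by
        ext w
        simp only [SimpleGraph.mem_neighborSet, Finset.coe_filter, Set.mem_ofPred_eq, mem_sdiff, mem_univ,
          true_and]
        constructor
        · intro h
          exact ⟨fun hw => hv (h.2.2 hw), h.1⟩
        · intro h
          exact ⟨h.2, fun h' => absurd h' hv, fun h' => absurd h' h.1⟩
      rw [h1, Set.ncard_coe_finset]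
      exact hA2 v hv
  · ext a b
    rw [SimpleGraph.sup_adj]
    constructor
    · intro h
      by_cases hc : a ∈ A ↔ b ∈ A
      · exact Or.inr ⟨h, hc⟩
      · exact Or.inl ⟨h, hc⟩
    · rintro (h | h)
      · exact h.1
      · exact h.1

theorem dg_le_graph {m : ℕ} {G G' : SimpleGraph (Fin m)} (h : G ≤ G') (S : Finset (Fin m)) (v : Fin m) :
    dg G S v ≤ dg G' S v := by
  classical
  unfold dg
  refine card_le_card fun u hu => ?_
  rw [mem_filter] at hu ⊢
  exact ⟨hu.1, h hu.2⟩

/-- A graph with few edges extends to a graph with a given number of edges. -/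
theorem extend {m : ℕ} (G : SimpleGraph (Fin m)) (e : ℕ) (h1 : G.edgeSet.ncard ≤ e)
    (h2 : e ≤ m.choose 2) : ∃ G' : SimpleGraph (Fin m), G ≤ G' ∧ G'.edgeSet.ncard = e := by
  classical
  have hc : (⊤ : SimpleGraph (Fin m)).edgeFinset.card = m.choose 2 := by
    rw [SimpleGraph.card_edgeFinset_top_eq_card_choose_two, Fintype.card_fin]
  have hG : G.edgeFinset ⊆ (⊤ : SimpleGraph (Fin m)).edgeFinset :=
    SimpleGraph.edgeFinset_mono le_top
  have hGc : G.edgeFinset.card ≤ e := by
    rw [← Set.ncard_coe_finset, SimpleGraph.coe_edgeFinset]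
    exact h1
  obtain ⟨T, hT1, hT2, hT3⟩ := exists_subsuperset_card_eq hG hGc (by rw [hc]; exact h2)
  have hset : (SimpleGraph.fromEdgeSet (T : Set (Sym2 (Fin m)))).edgeSet = (T : Set (Sym2 (Fin m))) := by
    rw [SimpleGraph.edgeSet_fromEdgeSet]
    ext z
    constructor
    · intro hz
      exact hz.1
    · intro hz
      refine ⟨hz, fun hd => ?_⟩
      have := hT2 (Finset.mem_coe.1 hz)
      rw [SimpleGraph.mem_edgeFinset] at this
      exact SimpleGraph.not_isDiag_of_mem_edgeSet _ this hd
  refine ⟨SimpleGraph.fromEdgeSet (T : Set (Sym2 (Fin m))), ?_, ?_⟩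
  · rw [← SimpleGraph.edgeSet_subset_edgeSet, hset]
    intro z hz
    exact Finset.mem_coe.2 (hT1 (SimpleGraph.mem_edgeFinset.2 hz))
  · rw [hset, Set.ncard_coe_finset, hT3]

theorem two_choose (k : ℕ) : 2 * (k + 1).choose 2 = (k + 1) * k := by
  have h := Nat.choose_two_right (k + 1)
  rw [h, Nat.add_sub_cancel]
  have h2 : 2 ∣ (k + 1) * k := by
    rw [Nat.mul_comm]
    exact (Nat.even_mul_succ_self k).two_dvd
  exact Nat.mul_div_cancel' h2

end GRAM

open GRAM

theorem specGRA (hCPL : SpecCPL) : SpecGRA := by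
  classical
  intro n hn G hG
  obtain ⟨k, rfl⟩ : ∃ k, n = k + 1 := ⟨n - 1, by omega⟩
  have c1 := two_choose (2 * (k + 1))
  have c2 := two_choose k
  have c3 := two_choose (2 * (k + 1) + 1)
  have hle : (2 * (k + 1) + 1).choose 2 - (k + 1).choose 2 - 1 ≤ (2 * (k + 1) + 2).choose 2 := by
    have : (2 * (k + 1) + 1).choose 2 ≤ (2 * (k + 1) + 2).choose 2 := by
      have h3 : 2 * (2 * (k + 1) + 1).choose 2 ≤ 2 * (2 * (k + 1) + 2).choose 2 := by
        rw [c1, c3]
        nlinarith
      omega
    omega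
  obtain ⟨G', hGG', hG'⟩ := extend G _ hG hle
  have he : 2 * G'.edgeSet.ncard + (k + 1) * k + 2 = (2 * (k + 1) + 1) * (2 * (k + 1)) := by
    have h4 : (k + 1).choose 2 + 1 ≤ (2 * (k + 1) + 1).choose 2 := by
      have h3 : 2 * ((k + 1).choose 2 + 1) ≤ 2 * (2 * (k + 1) + 1).choose 2 := by
        rw [mul_add, c1, c2]
        nlinarith
      omega
    rw [hG']
    omega
  have hC : e2 G'ᶜ (univ : Finset (Fin (2 * (k + 1) + 2))) = (k + 1 + 1) * (k + 1 + 1 + 1) + 2 := by
    have h1 : ∑ v ∈ (univ : Finset (Fin (2 * (k + 1) + 2))), (dg G' univ v + dg G'ᶜ univ v + 1) =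
        ∑ v ∈ (univ : Finset (Fin (2 * (k + 1) + 2))), (2 * (k + 1) + 2) := by
      refine sum_congr rfl fun v _ => ?_
      rw [dg_compl G' univ v (mem_univ v), card_univ, Fintype.card_fin]
    rw [sum_add_distrib, sum_add_distrib, sum_const, sum_const, card_univ, Fintype.card_fin, smul_eq_mul,
      smul_eq_mul] at h1
    have h2 := e2_univ G'
    unfold e2 at h2 ⊢
    nlinarith
  have key : ∃ A : Finset (Fin (2 * (k + 1) + 2)), (∀ v ∈ A, dg G' A v ≤ k) ∧
      (∀ v, v ∉ A → dg G' (univ \ A) v ≤ k) := by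
    rcases hCPL (Fin (2 * (k + 1) + 2)) G'ᶜ (k + 1 + 1) (by omega) (by rw [Fintype.card_fin]; ring) hC with
      ⟨P, hP, hcore⟩ | ⟨A, B, hAB, hdis, hA, hB, h1, h2⟩
    · refine ⟨P, fun v hv => ?_, fun v hv => ?_⟩
      · have h1 := dg_compl G' P v hv
        have h2 := hcore v hv
        omega
      · have h1 := dg_compl G' (univ \ P) v (by simp [hv])
        rw [card_sdiff_of_subset (subset_univ P), card_univ, Fintype.card_fin] at h1
        omega
    · refine ⟨A, fun v hv => ?_, fun v hv => ?_⟩
      · have h3 := dg_compl G' A v hv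
        have h4 := h1 v hv
        omega
      · have hB' : univ \ A = B := by
          rw [← hAB, union_sdiff_left, sdiff_eq_self_of_disjoint hdis.symm]
        rw [hB']
        have hvB : v ∈ B := by
          have : v ∈ A ∪ B := by rw [hAB]; exact mem_univ v
          rcases mem_union.1 this with h | h
          · exact absurd h hv
          · exact h
        have h3 := dg_compl G' B v hvB
        have h4 := h2 v hvB
        omega
  obtain ⟨A, hA1, hA2⟩ := key
  rw [Nat.add_sub_cancel]
  exact decomp G A (fun v hv => (dg_le_graph hGG' A v).trans (hA1 v hv))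
    (fun v hv => (dg_le_graph hGG' _ v).trans (hA2 v hv))

end Pool.Agent.Lib.MP_270b6b_co.MC
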