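import Pool.Agent.Lib.MP_270b6b_co.MC.Spec

/-!
# MP_270b6b, module KEY: all cores in `D` are large
-/

set_option autoImplicit false

namespace Pool.Agent.Lib.MP_270b6b_co.MC

open Pool.Agent.Lib.MP_270b6b_co.MB

open Finset

namespace KEYM

variable {V : Type} [DecidableEq V] {C : SimpleGraph V}

/-- LM for a core, with the minimum degree -/
theorem core_bound (hLM : SpecLM) (H : Finset V) (hne : H.Nonempty) (hcore : Core C H) :
    ∃ a : ℕ, H.card * a ≤ e2 C H ∧
      e2 C H + 2 + 2 * ((cs C H).card + 1) ≤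
        2 * H.card + (cs C H).card * ((cs C H).card + 1) + 2 * a := by
  have hmem : H.card ∈ cs C H := by
    rw [mem_cs]
    exact ⟨card_pos.2 hne, H, Subset.refl _, rfl, hcore⟩
  obtain ⟨v, hv, hmin⟩ := exists_min_image H (dg C H) hne
  refine ⟨dg C H v, ?_, ?_⟩
  · unfold e2
    rw [← smul_eq_mul]
    exact card_nsmul_le_sum _ _ _ hmin
  · have he := e2_erase (C := C) hv
    have h2 := hcore v hv
    have hlt := dg_lt_card (C := C) hv
    have hcE := card_erase_of_mem hv
    have h1 : (H.erase v).Nonempty := card_pos.1 (by omega)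
    have ih := hLM V C (H.erase v) h1
    have hsub : cs C (H.erase v) ⊆ cs C H := cs_mono (erase_subset v H)
    have h0' : H.card ∉ cs C (H.erase v) := by
      rw [mem_cs]
      rintro ⟨-, X, hX, hXc, -⟩
      have := card_le_card hX
      omega
    have h3 : (cs C (H.erase v)).card < (cs C H).card := card_lt_card ⟨hsub, fun h => h0' (h hmem)⟩
    obtain ⟨r, hr⟩ : ∃ r, (cs C H).card = r + 1 := ⟨(cs C H).card - 1, by omega⟩
    have h6 : (cs C (H.erase v)).card * ((cs C (H.erase v)).card + 1) ≤ r * (r + 1) :=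
      Nat.mul_le_mul (by omega) (by omega)
    have h7 : (cs C H).card * ((cs C H).card + 1) = r * (r + 1) + 2 * (r + 1) := by
      rw [hr]
      ring
    rw [hr] at *
    omega

/-- an isolated vertex is in no core -/
theorem notMem_core {H X : Finset V} {z : V} (hz : dg C H z = 0) (hX : X ⊆ H) (hc : Core C X) :
    z ∉ X := by
  intro h
  have h1 := hc z h
  have h2 := dg_mono (C := C) hX z
  omega

theorem cs_erase {H : Finset V} {z : V} (hz : dg C H z = 0) : cs C (H.erase z) = cs C H := by
  apply Subset.antisymm (cs_mono (erase_subset z H))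
  intro i hi
  rw [mem_cs] at hi ⊢
  obtain ⟨h1, X, hX, hXc, hcore⟩ := hi
  refine ⟨h1, X, ?_, hXc, hcore⟩
  intro x hx
  rw [mem_erase]
  exact ⟨fun h => notMem_core hz hX hcore (h ▸ hx), hX hx⟩

theorem three_le {H : Finset V} {i : ℕ} (h : i ∈ cs C H) : 3 ≤ i := by
  obtain ⟨h1, X, _, hXc, hXcore⟩ := mem_cs.1 h
  rw [← hXc]
  exact hXcore.three_le_card (card_pos.1 (by omega))

theorem le_card {H : Finset V} {i : ℕ} (h : i ∈ cs C H) : i ≤ H.card := by
  obtain ⟨h1, X, hX, hXc, hXcore⟩ := mem_cs.1 h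
  rw [← hXc]
  exact card_le_card hX

theorem core_of_mem {H : Finset V} (h : H.card ∈ cs C H) : Core C H := by
  obtain ⟨_, X, hX, hXc, hXcore⟩ := mem_cs.1 h
  have : X = H := eq_of_subset_of_card_le hX (by omega)
  rwa [this] at hXcore

/-- Mantel's theorem -/
theorem mantel (R : Finset V) {w : ℕ} (hR : R.card = w)
    (h : w * w < 2 * e2 C R) : ∃ X ⊆ R, X.card = 3 ∧ Core C X := by
  classical
  have hne : R.Nonempty := by
    rw [nonempty_iff_ne_empty]
    rintro rfl
    rw [e2_empty] at h
    omega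
  obtain ⟨v, hv, hmax⟩ := exists_max_image R (dg C R) hne
  by_cases hcase : ∃ a ∈ R.filter (fun u => C.Adj v u), ∃ b ∈ R.filter (fun u => C.Adj v u),
      C.Adj a b
  · obtain ⟨a, ha, b, hb, hab⟩ := hcase
    rw [mem_filter] at ha hb
    have hva := ha.2
    have hvb := hb.2
    refine ⟨{v, a, b}, ?_, ?_, ?_⟩
    · intro x hx
      rw [mem_insert, mem_insert, mem_singleton] at hx
      rcases hx with rfl | rfl | rfl
      · exact hv
      · exact ha.1
      · exact hb.1
    · exact card_eq_three.2 ⟨v, a, b, hva.ne, hvb.ne, hab.ne, rfl⟩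
    · intro x hx
      have m1 : v ∈ ({v, a, b} : Finset V) := by simp
      have m2 : a ∈ ({v, a, b} : Finset V) := by simp
      have m3 : b ∈ ({v, a, b} : Finset V) := by simp
      rw [mem_insert, mem_insert, mem_singleton] at hx
      rcases hx with rfl | rfl | rfl
      · exact two_le_dg m2 m3 hab.ne hva hvb
      · exact two_le_dg m1 m3 hvb.ne hva.symm hab
      · exact two_le_dg m1 m2 hva.ne hvb.symm hab.symm
  · exfalso
    push Not at hcase
    obtain ⟨N, hN⟩ : ∃ N, N = R.filter (fun u => C.Adj v u) := ⟨_, rfl⟩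
    rw [← hN] at hcase
    have hNR : N ⊆ R := by rw [hN]; exact filter_subset _ _
    have hNc : N.card = dg C R v := by
      rw [hN]
      unfold dg
      congr
    have h1 : e2 C N = 0 := by
      unfold e2
      apply sum_eq_zero
      intro a ha
      rw [dg_eq_zero_iff]
      intro b hb
      exact hcase a ha b hb
    have h2 := e2_union (C := C) (S := N) (T := R \ N) disjoint_sdiff
    rw [union_sdiff_of_subset hNR, h1] at h2
    have h3 : e2 C (R \ N) + ∑ u ∈ R \ N, dg C N u = ∑ u ∈ R \ N, dg C R u := by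
      unfold e2
      rw [← sum_add_distrib]
      refine sum_congr rfl fun u _ => ?_
      have h4 := dg_union (C := C) (S := N) (T := R \ N) disjoint_sdiff u
      rw [union_sdiff_of_subset hNR] at h4
      omega
    have h5 : ∑ u ∈ R \ N, dg C R u ≤ (R \ N).card * dg C R v := by
      rw [← smul_eq_mul]
      apply sum_le_card_nsmul
      intro u hu
      exact hmax u (mem_sdiff.1 hu).1
    have h6 : (R \ N).card = w - dg C R v := by
      rw [card_sdiff_of_subset hNR, hNc, hR]
    have h7 := dg_lt_card (C := C) hv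
    rw [h6] at h5
    obtain ⟨m, hm⟩ : ∃ m, w = dg C R v + 1 + m := ⟨w - dg C R v - 1, by omega⟩
    have h8 : w - dg C R v = m + 1 := by omega
    rw [h8] at h5
    generalize dg C R v = Δ at *
    subst hm
    zify at h h5 h2
    nlinarith [sq_nonneg ((Δ : ℤ) - m - 1)]

/-- few missing edges: a triangle -/
theorem triangle {w : ℕ} (hw : 7 ≤ w) (R : Finset V) (hR : R.card = w)
    (h : w * (w - 1) ≤ e2 C R + 2 * w) : ∃ X ⊆ R, X.card = 3 ∧ Core C X := by
  apply mantel R hR
  obtain ⟨k, rfl⟩ : ∃ k, w = 7 + k := ⟨w - 7, by omega⟩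
  have h1 : 7 + k - 1 = 6 + k := by omega
  rw [h1] at h
  nlinarith

/-- the two sets of sizes -/
theorem sizes {w : ℕ} {R D : Finset V} (h : Sit C w R D) :
    ∃ U : Finset ℕ, U ⊆ Icc 1 w ∧ U.card = (cs C R).card + (cs C D).card ∧
      (∀ j ∈ U, j ∈ cs C R ∨ ∃ i ∈ cs C D, w + 1 - i = j) := by
  refine ⟨cs C R ∪ ((cs C D).image fun i => w + 1 - i), ?_, ?_, ?_⟩
  · intro j hj
    rw [mem_union] at hj
    rw [mem_Icc]
    rcases hj with hj | hj
    · have h1 := three_le hj
      have h2 := le_card hj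
      rw [h.cR] at h2
      omega
    · rw [mem_image] at hj
      obtain ⟨i, hi, hij⟩ := hj
      have h1 := three_le hi
      have h2 := le_card hi
      rw [h.cD] at h2
      omega
  · have himg : ((cs C D).image fun i => w + 1 - i).card = (cs C D).card := by
      apply card_image_of_injOn
      intro i hi j hj hij
      have h1 := le_card hi
      have h2 := le_card hj
      rw [h.cD] at h1 h2
      simp only at hij
      omega
    rw [card_union_of_disjoint, himg]
    rw [disjoint_left]
    intro j hj hj'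
    rw [mem_image] at hj'
    obtain ⟨i, hi, hij⟩ := hj'
    obtain ⟨_, X, hX, hXc, hXcore⟩ := mem_cs.1 hj
    obtain ⟨_, Y, hY, hYc, hYcore⟩ := mem_cs.1 hi
    have h2 := card_le_card hY
    rw [h.cD] at h2
    apply h.noA (X ∪ Y) _ (hXcore.union hYcore)
    rw [card_union_of_disjoint (disjoint_of_subset_left hX (disjoint_of_subset_right hY h.dis))]
    omega
  · intro j hj
    rw [mem_union, mem_image] at hj
    exact hj

/-- LM without an isolated vertex -/
theorem lm_iso (hLM : SpecLM) {H : Finset V} {z : V} (hz : z ∈ H) (h0 : dg C H z = 0)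
    (h2 : 2 ≤ H.card) : e2 C H + 4 ≤ 2 * H.card + (cs C H).card * ((cs C H).card + 1) := by
  have h1 := card_erase_of_mem hz
  have h3 := hLM V C (H.erase z) (card_pos.1 (by omega))
  rw [cs_erase h0] at h3
  have h4 := e2_erase (C := C) hz
  omega

theorem full_core_of_iso {H : Finset V} {z : V} (hz : z ∈ H) (h0 : dg C H z = 0)
    (h : H.card - 1 ∈ cs C H) : Core C (H.erase z) := by
  apply core_of_mem
  rw [card_erase_of_mem hz, cs_erase h0]
  exact h

theorem notMem_of_iso {H : Finset V} {z : V} (hz : z ∈ H) (h0 : dg C H z = 0) :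
    H.card ∉ cs C H := by
  intro h
  have := core_of_mem h z hz
  omega

/-- the numbers: `t ≤ 2` -/
theorem arith {w s t A B : ℕ} (hw : 7 ≤ w) (hst : s + t + 1 ≤ w)
    (h1 : A + B + 6 ≤ 4 * w + s * (s + 1) + t * (t + 1)) (h2 : B ≤ A + 2)
    (h3 : w * (w + 1) + 2 ≤ A + B + 2 * w) (hA : A + 2 ≤ 2 * w + s * (s + 1)) (ht : 3 ≤ t) :
    s + t + 1 = w ∧ ((w = 7 ∧ s = 3 ∧ t = 3) ∨ (w = 8 ∧ s = 4 ∧ t = 3) ∨ (w = 8 ∧ s = 3 ∧ t = 4)) := by
  rcases Nat.lt_or_ge s 3 with hs | hs
  · exfalso
    have : s * (s + 1) ≤ 2 * 3 := Nat.mul_le_mul (by omega) (by omega)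
    nlinarith
  · obtain ⟨i, rfl⟩ : ∃ i, s = 3 + i := ⟨s - 3, by omega⟩
    obtain ⟨j, rfl⟩ : ∃ j, t = 3 + j := ⟨t - 3, by omega⟩
    obtain ⟨k, rfl⟩ : ∃ k, w = 7 + i + j + k := ⟨w - 7 - i - j, by omega⟩
    have hm : i + j + k ≤ 1 := by
      by_contra hcon
      nlinarith [Nat.zero_le (i * j), Nat.zero_le (i * k), Nat.zero_le (j * k)]
    have hi : i ≤ 1 := by omega
    have hj : j ≤ 1 := by omega
    have hk : k ≤ 1 := by omega
    interval_cases i <;> interval_cases j <;> interval_cases k <;> simp_all <;> omega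

/-- `t ≤ 2` -/
theorem two (hLM : SpecLM) {w : ℕ} {R D : Finset V} (h : Sit C w R D) (hw : 7 ≤ w)
    (iso : (∃ z ∈ R, dg C R z = 0) ∨ ∃ z ∈ D, dg C D z = 0) : (cs C D).card ≤ 2 := by
  by_contra hcon
  push Not at hcon
  have hRne : R.Nonempty := card_pos.1 (by rw [h.cR]; omega)
  have hDne : D.Nonempty := card_pos.1 (by rw [h.cD]; omega)
  have hR := hLM V C R hRne
  have hD := hLM V C D hDne
  obtain ⟨U, hU, hUc, hUm⟩ := sizes h
  have hS : ∑ u ∈ D, dg C R u ≤ w := by
    calc ∑ u ∈ D, dg C R u ≤ ∑ u ∈ D, 1 := sum_le_sum h.h1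
      _ = w := by rw [sum_const, h.cD, smul_eq_mul, mul_one]
  have h3 : w * (w + 1) + 2 ≤ e2 C R + e2 C D + 2 * w := by
    have := h.h3
    omega
  rcases iso with ⟨z, hz, h0⟩ | ⟨z, hz, h0⟩
  · have hRi := lm_iso hLM hz h0 (by rw [h.cR]; omega)
    have hwR := notMem_of_iso hz h0
    rw [h.cR] at hR hRi hwR
    rw [h.cD] at hD
    have hU' : U ⊆ Icc 1 (w - 1) := by
      intro j hj
      have h5 := hU hj
      rw [mem_Icc] at h5 ⊢
      have h6 : j ≠ w := by
        rintro rfl
        rcases hUm j hj with h7 | ⟨i, hi, hij⟩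
        · exact hwR h7
        · have := three_le hi
          omega
      omega
    have hc := card_le_card hU'
    rw [Nat.card_Icc, hUc] at hc
    obtain ⟨hst, hlist⟩ := arith hw (by omega) (by omega) h.h2 h3 hR hcon
    have hUe := eq_of_subset_of_card_le hU' (by rw [Nat.card_Icc]; omega)
    have m1 : w ∈ cs C D := by
      have : 1 ∈ U := by rw [hUe, mem_Icc]; omega
      rcases hUm 1 this with h7 | ⟨i, hi, hij⟩
      · have := three_le h7
        omega
      · have h8 := le_card hi
        rw [h.cD] at h8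
        have : i = w := by omega
        rwa [← this]
    have m2 : w - 1 ∈ cs C R := by
      have : w - 1 ∈ U := by rw [hUe, mem_Icc]; omega
      rcases hUm _ this with h7 | ⟨i, hi, hij⟩
      · exact h7
      · have := three_le hi
        omega
    have cD : Core C D := core_of_mem (by rw [h.cD]; exact m1)
    have cR : Core C (R.erase z) := full_core_of_iso hz h0 (by rw [h.cR]; exact m2)
    have hce : (R.erase z).card = w - 1 := by rw [card_erase_of_mem hz, h.cR]
    obtain ⟨a, a1, a2⟩ := core_bound hLM D hDne cD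
    obtain ⟨b, b1, b2⟩ := core_bound hLM (R.erase z) (card_pos.1 (by omega)) cR
    rw [cs_erase h0, hce] at b2
    rw [hce] at b1
    rw [h.cD] at a1 a2
    have he := e2_erase (C := C) hz
    rw [h0] at he
    generalize (cs C R).card = s at *
    generalize (cs C D).card = t at *
    rcases hlist with ⟨rfl, rfl, rfl⟩ | ⟨rfl, rfl, rfl⟩ | ⟨rfl, rfl, rfl⟩ <;> omega
  · have hDi := lm_iso hLM hz h0 (by rw [h.cD]; omega)
    have hwD := notMem_of_iso hz h0
    rw [h.cD] at hD hDi hwD
    rw [h.cR] at hR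
    have hU' : U ⊆ Icc 2 w := by
      intro j hj
      have h5 := hU hj
      rw [mem_Icc] at h5 ⊢
      have h6 : j ≠ 1 := by
        rintro rfl
        rcases hUm 1 hj with h7 | ⟨i, hi, hij⟩
        · have := three_le h7
          omega
        · have h8 := le_card hi
          rw [h.cD] at h8
          have : i = w := by omega
          rw [this] at hi
          exact hwD hi
      omega
    have hc := card_le_card hU'
    rw [Nat.card_Icc, hUc] at hc
    obtain ⟨hst, hlist⟩ := arith hw (by omega) (by omega) h.h2 h3 hR hcon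
    have hUe := eq_of_subset_of_card_le hU' (by rw [Nat.card_Icc]; omega)
    have m1 : w - 1 ∈ cs C D := by
      have : 2 ∈ U := by rw [hUe, mem_Icc]; omega
      rcases hUm 2 this with h7 | ⟨i, hi, hij⟩
      · have := three_le h7
        omega
      · have h8 := le_card hi
        rw [h.cD] at h8
        have : i = w - 1 := by omega
        rwa [← this]
    have m2 : w ∈ cs C R := by
      have : w ∈ U := by rw [hUe, mem_Icc]; omega
      rcases hUm _ this with h7 | ⟨i, hi, hij⟩
      · exact h7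
      · have := three_le hi
        omega
    have cR : Core C R := core_of_mem (by rw [h.cR]; exact m2)
    have cD : Core C (D.erase z) := full_core_of_iso hz h0 (by rw [h.cD]; exact m1)
    have hce : (D.erase z).card = w - 1 := by rw [card_erase_of_mem hz, h.cD]
    obtain ⟨a, a1, a2⟩ := core_bound hLM R hRne cR
    obtain ⟨b, b1, b2⟩ := core_bound hLM (D.erase z) (card_pos.1 (by omega)) cD
    rw [cs_erase h0, hce] at b2
    rw [hce] at b1
    rw [h.cR] at a1 a2
    have he := e2_erase (C := C) hz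
    rw [h0] at he
    generalize (cs C R).card = s at *
    generalize (cs C D).card = t at *
    rcases hlist with ⟨rfl, rfl, rfl⟩ | ⟨rfl, rfl, rfl⟩ | ⟨rfl, rfl, rfl⟩ <;> omega

/-- the case `w = 6` -/
theorem key6 (hLG : SpecLG) (hED : SpecED) {R D : Finset V} (h : Sit C 6 R D)
    (iso : (∃ z ∈ R, dg C R z = 0) ∨ ∃ z ∈ D, dg C D z = 0) (X : Finset V) (hX : X ⊆ D)
    (hne : X.Nonempty) (hXc : Core C X) : 6 ≤ X.card + 1 := by
  by_contra hcon
  have h3X := hXc.three_le_card hne
  have hS : ∑ u ∈ D, dg C R u ≤ 6 := by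
    calc ∑ u ∈ D, dg C R u ≤ ∑ u ∈ D, 1 := sum_le_sum h.h1
      _ = 6 := by rw [sum_const, h.cD, smul_eq_mul, mul_one]
  have h3 := h.h3
  have h2 := h.h2
  have bad : ∀ Y ⊆ R, ∀ X ⊆ D, Core C Y → Core C X → Y.card + X.card ≠ 7 := by
    intro Y hY X hX hYC hXc h7
    have hdis : Disjoint Y X := disjoint_of_subset_left hY (disjoint_of_subset_right hX h.dis)
    refine h.noA (Y ∪ X) ?_ (hYC.union hXc)
    rw [card_union_of_disjoint hdis]
    omega
  rcases iso with ⟨z, hz, h0⟩ | ⟨z, hz, h0⟩
  · have he := e2_erase (C := C) hz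
    rw [h0] at he
    have hce : (R.erase z).card = 5 := by rw [card_erase_of_mem hz, h.cR]
    rcases hLG V C (R.erase z) ∅ (7 - X.card) (empty_subset _) (by simp) (by omega) with
      ⟨Y, -, hYR, hYc, hY⟩ | hbad
    · exact bad Y (hYR.trans (erase_subset _ _)) X hX (fun v hv => hY v hv (notMem_empty v)) hXc
        (by omega)
    · rw [hce] at hbad
      rcases (show X.card = 3 ∨ X.card = 4 by omega) with hc | hc
      · rw [hc] at hbad
        omega
      · rw [hc] at hbad
        omega
  · have he := e2_erase (C := C) hz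
    rw [h0] at he
    have hce : (D.erase z).card = 5 := by rw [card_erase_of_mem hz, h.cD]
    have hR18 : e2 C R ≤ 18 := by
      rcases (show X.card = 3 ∨ X.card = 4 by omega) with hc | hc
      · rcases hLG V C R ∅ 4 (empty_subset _) (by simp) (by rw [h.cR]; omega) with
          ⟨Y, -, hYR, hYc, hY⟩ | hbad
        · exact absurd (by omega) (bad Y hYR X hX (fun v hv => hY v hv (notMem_empty v)) hXc)
        · rw [h.cR] at hbad
          omega
      · by_contra hcon2
        obtain ⟨Y, hY, hYc, hYC⟩ := mantel (C := C) R h.cR (by omega)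
        exact bad Y hY X hX hYC hXc (by omega)
    obtain ⟨X3, hX3, hX3c, hX3C⟩ := mantel (C := C) (D.erase z) hce (by omega)
    obtain ⟨X4, hX4, hX4c, hX4C⟩ : ∃ X ⊆ D.erase z, X.card = 4 ∧ Core C X := by
      rcases hLG V C (D.erase z) ∅ 4 (empty_subset _) (by simp) (by omega) with
        ⟨Y, -, hYR, hYc, hY⟩ | hbad
      · exact ⟨Y, hYR, hYc, fun v hv => hY v hv (notMem_empty v)⟩
      · rw [hce] at hbad
        omega
    have hall : ∀ Y ⊆ R, Y.Nonempty → Core C Y → 6 ≤ Y.card + 1 := by
      intro Y hY hYne hYC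
      have h3Y := hYC.three_le_card hYne
      have h5 := bad Y hY X3 (hX3.trans (erase_subset _ _)) hYC hX3C
      have h6 := bad Y hY X4 (hX4.trans (erase_subset _ _)) hYC hX4C
      omega
    have hE := hED V C 6 R le_rfl h.cR hall
    omega

end KEYM

open KEYM

theorem specKEY (hLM : SpecLM) (hLG : SpecLG) (hED : SpecED) : SpecKEY := by
  intro V _ C w R D h hw56 iso X hX hne hXc
  rcases Nat.lt_or_ge w 7 with hw6 | hw
  · have hw6' : w = 6 := by omega
    subst hw6'
    exact key6 hLG hED h iso X hX hne hXc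
  have ht := two hLM h hw iso
  by_contra hcon
  have h3X := hXc.three_le_card hne
  have hS : ∑ u ∈ D, dg C R u ≤ w := by
    calc ∑ u ∈ D, dg C R u ≤ ∑ u ∈ D, 1 := sum_le_sum h.h1
      _ = w := by rw [sum_const, h.cD, smul_eq_mul, mul_one]
  have h3 : w * (w + 1) + 2 ≤ e2 C R + e2 C D + 2 * w := by
    have := h.h3
    omega
  have htt : (cs C D).card * ((cs C D).card + 1) ≤ 2 * 3 := Nat.mul_le_mul ht (by omega)
  obtain ⟨i, hi⟩ : ∃ i, i = w + 1 - X.card := ⟨_, rfl⟩
  have hw1 : w * (w - 1) + w = w * w := by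
    obtain ⟨k, rfl⟩ : ∃ k, w = k + 1 := ⟨w - 1, by omega⟩
    simp only [Nat.add_sub_cancel]
    ring
  have hw2 : w * (w + 1) = w * w + w := by ring
  obtain ⟨Y, hY, hYc, hYC⟩ : ∃ Y ⊆ R, Y.card = i ∧ Core C Y := by
    rcases iso with ⟨z, hz, h0⟩ | ⟨z, hz, h0⟩
    · -- `R - z` misses at most two edges
      have hD := hLM V C D (card_pos.1 (by rw [h.cD]; omega))
      rw [h.cD] at hD
      have he := e2_erase (C := C) hz
      rw [h0] at he
      have hce : (R.erase z).card = w - 1 := by rw [card_erase_of_mem hz, h.cR]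
      rcases hLG V C (R.erase z) ∅ i (empty_subset _) (by simp) (by omega) with
        ⟨Y, -, hYR, hYc, hY⟩ | hbad
      · exact ⟨Y, hYR.trans (erase_subset _ _), hYc, fun v hv => hY v hv (notMem_empty v)⟩
      · exfalso
        rw [hce] at hbad
        obtain ⟨a, ha⟩ : ∃ a, i = 3 + a := ⟨i - 3, by omega⟩
        obtain ⟨b, hb⟩ : ∃ b, w = 3 + a + 2 + b := ⟨w - (3 + a + 2), by omega⟩
        have e1 : w - 1 + 1 - i = 2 + b := by omega
        have e2' : i - 2 = 1 + a := by omega
        rw [e1, e2'] at hbad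
        have e3 : (2 + b) * (1 + a) = 2 + 2 * a + b + a * b := by ring
        have e4 : (w - 1) * (w - 1 - 1) + 2 * (w - 1) + w = w * w := by
          obtain ⟨k, rfl⟩ : ∃ k, w = k + 2 := ⟨w - 2, by omega⟩
          have f1 : k + 2 - 1 = k + 1 := by omega
          rw [f1, Nat.add_sub_cancel]
          ring
        rw [e3] at hbad
        have : 0 ≤ a * b := Nat.zero_le _
        omega
    · have hDi := lm_iso hLM hz h0 (by rw [h.cD]; omega)
      rw [h.cD] at hDi
      rcases Nat.lt_or_ge 3 i with h4 | h4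
      · rcases hLG V C R ∅ i (empty_subset _) (by simp) (by rw [h.cR]; omega) with
          ⟨Y, -, hYR, hYc, hY⟩ | hbad
        · exact ⟨Y, hYR, hYc, fun v hv => hY v hv (notMem_empty v)⟩
        · exfalso
          rw [h.cR] at hbad
          obtain ⟨a, ha⟩ : ∃ a, i = 4 + a := ⟨i - 4, by omega⟩
          obtain ⟨b, hb⟩ : ∃ b, w = 4 + a + 2 + b := ⟨w - (4 + a + 2), by omega⟩
          have e1 : w + 1 - i = 3 + b := by omega
          have e2' : i - 2 = 2 + a := by omega
          rw [e1, e2'] at hbad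
          have e3 : (3 + b) * (2 + a) = 6 + 3 * a + 2 * b + a * b := by ring
          rw [e3] at hbad
          have : 0 ≤ a * b := Nat.zero_le _
          omega
      · have h5 : i = 3 := by omega
        rw [h5]
        exact triangle hw R h.cR (by omega)
  have hdis : Disjoint Y X := disjoint_of_subset_left hY (disjoint_of_subset_right hX h.dis)
  refine h.noA (Y ∪ X) ?_ (hYC.union hXc)
  rw [card_union_of_disjoint hdis, hYc]
  omega

end Pool.Agent.Lib.MP_270b6b_co.MC
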