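import Pool.Agent.Lib.MP_270b6b_co.MC.Spec

/-!
# MP_270b6b, `m = 2 n + 2`: module MAKE
-/

set_option autoImplicit false

namespace Pool.Agent.Lib.MP_270b6b_co.MC

open Pool.Agent.Lib.MP_270b6b_co.MB

open Finset

theorem specMAKE (hKEY : SpecKEY) (hEP : SpecEP) (hED : SpecED)
    (hISR : SpecISR) (hMK5 : SpecMK5) : SpecMAKE := by
  intro V _ C w R D hs
  rcases Nat.lt_or_ge w 6 with hw5 | hw
  · have hw5' : w = 5 := by
      have := hs.hw
      omega
    subst hw5'
    exact hMK5 V C R D hs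
  by_cases hiso : (∃ z ∈ R, dg C R z = 0) ∨ ∃ z ∈ D, dg C D z = 0
  swap
  · push Not at hiso
    left
    refine ⟨R, D, rfl, hs.dis, hs.cR, hs.cD, fun v hv => ?_, fun v hv => ?_⟩
    · have := hiso.1 v hv
      omega
    · have := hiso.2 v hv
      omega
  have hcore := hKEY V C w R D hs hw hiso
  have hE := hED V C w D hw hs.cD hcore
  have hI := hISR V C w R D hs hw hE
  by_cases h : ∀ v ∈ D, 1 ≤ dg C D v
  · exact Or.inl ⟨R, D, rfl, hs.dis, hs.cR, hs.cD, hI, h⟩
  · right
    push Not at h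
    obtain ⟨z0, hz0, hz⟩ := h
    have hz' : dg C D z0 = 0 := by omega
    have hc : (D.erase z0).card + 1 = w := by rw [card_erase_add_one hz0, hs.cD]
    have hcs : ∀ X ⊆ D.erase z0, X.Nonempty → Core C X → X = D.erase z0 := by
      intro X hX hne hXc
      have h1 := hcore X (hX.trans (erase_subset _ _)) hne hXc
      exact eq_of_subset_of_card_le hX (by omega)
    have hne : (D.erase z0).Nonempty := by
      rw [← card_pos]
      omega
    obtain ⟨hE1, hE2⟩ := hEP V C (D.erase z0) hne hcs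
    have he := e2_erase (C := C) hz0
    have hsum : ∑ u ∈ D.erase z0, dg C R u + dg C R z0 = ∑ u ∈ D, dg C R u := sum_erase_add _ _ hz0
    have h3 := hs.h3
    have h4 : e2 C (D.erase z0) + 2 ≤ 2 * w := by omega
    have h5 : 2 * w ≤ e2 C (D.erase z0) + 3 → Core C (D.erase z0) := fun h => hE2 (by omega)
    have h6 : e2 C R + e2 C (D.erase z0) + 2 * (∑ u ∈ D.erase z0, dg C R u) + 2 * dg C R z0 =
        w * (w + 1) + 2 := by
      rw [← h3, ← hsum, he, hz']
      ring
    exact ⟨z0, D.erase z0, ⟨hs, hz0, rfl, hc, hcs, h4, h5, h6⟩⟩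

end Pool.Agent.Lib.MP_270b6b_co.MC
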