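import Pool.Agent.Lib.MP_270b6b_co.MC.KEY

/-!
# MP_270b6b, module MK5: the case `w = 5`
-/

set_option autoImplicit false

namespace Pool.Agent.Lib.MP_270b6b_co.MC

open Pool.Agent.Lib.MP_270b6b_co.MB

open Finset

namespace MK5M

variable {V : Type} [DecidableEq V] {C : SimpleGraph V}

/-- a set without cores of size 3 with five vertices and six edges -/
theorem lemK (hEP : SpecEP) (H : Finset V) (hc : H.card = 5)
    (h3 : ∀ X ⊆ H, Core C X → X.card ≠ 3) (he : e2 C H = 12) :
    Core C H ∧ ∀ u u' : V, u ∈ H → u' ∈ H → ∃ Q ⊆ H, Q.card = 4 ∧ Core C Q ∧ u ∈ Q ∧ u' ∈ Q := by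
  classical
  have hep : ∀ t ∈ H, e2 C (H.erase t) ≤ 8 ∧ (8 ≤ e2 C (H.erase t) + 1 → Core C (H.erase t)) := by
    intro t ht
    have hc4 : (H.erase t).card = 4 := by rw [card_erase_of_mem ht, hc]
    have := hEP V C (H.erase t) (card_pos.1 (by omega)) ?_
    · rw [hc4] at this
      exact this
    · intro X hX hne hXc
      have h1 := hXc.three_le_card hne
      have h2 := h3 X (hX.trans (erase_subset _ _)) hXc
      exact eq_of_subset_of_card_le hX (by omega)
  have hdeg : ∀ t ∈ H, 2 ≤ dg C H t := by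
    intro t ht
    have h1 := e2_erase (C := C) ht
    have h2 := (hep t ht).1
    omega
  refine ⟨hdeg, fun u u' hu hu' => ?_⟩
  have hT : 3 ≤ (H.filter fun t => dg C H t = 2).card := by
    have h1 : ∑ t ∈ H, 3 ≤ ∑ t ∈ H, (dg C H t + if dg C H t = 2 then 1 else 0) := by
      refine sum_le_sum fun t ht => ?_
      have := hdeg t ht
      split_ifs <;> omega
    rw [sum_add_distrib, sum_const, hc, ← card_filter, smul_eq_mul] at h1
    have h2 : ∑ t ∈ H, dg C H t = 12 := he
    omega
  obtain ⟨t, ht, htu⟩ : ∃ t ∈ H.filter (fun t => dg C H t = 2), t ∉ ({u, u'} : Finset V) := by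
    apply exists_mem_notMem_of_card_lt_card
    have := card_le_two (a := u) (b := u')
    omega
  rw [mem_filter] at ht
  rw [mem_insert, mem_singleton, not_or] at htu
  refine ⟨H.erase t, erase_subset _ _, by rw [card_erase_of_mem ht.1, hc], (hep t ht.1).2 ?_,
    mem_erase.2 ⟨fun h => htu.1 h.symm, hu⟩, mem_erase.2 ⟨fun h => htu.2 h.symm, hu'⟩⟩
  have h1 := e2_erase (C := C) ht.1
  omega

/-- a core of size 4 and two adjacent vertices with neighbours in it -/
theorem six (Q : Finset V) (hQ : Q.card = 4) (hQC : Core C Q) (x y : V) (hx : x ∉ Q) (hy : y ∉ Q)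
    (hxy : C.Adj x y) (h1 : 1 ≤ dg C Q x) (h2 : 1 ≤ dg C Q y) : ∃ P : Finset V, P.card = 6 ∧ Core C P := by
  have hne := hxy.ne
  have hxi : x ∉ insert y Q := by
    rw [mem_insert]
    rintro (h | h)
    · exact hne h
    · exact hx h
  refine ⟨insert x (insert y Q), by rw [card_insert_of_notMem hxi, card_insert_of_notMem hy, hQ], ?_⟩
  have hsub : Q ⊆ insert x (insert y Q) := fun z hz => mem_insert_of_mem (mem_insert_of_mem hz)
  intro v hv
  rw [mem_insert, mem_insert] at hv
  rcases hv with rfl | rfl | hv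
  · obtain ⟨p, hp, hvp⟩ := one_le_dg_iff.1 h1
    exact two_le_dg (x := y) (y := p) (mem_insert_of_mem (mem_insert_self _ _)) (hsub hp)
      (fun h => hy (h ▸ hp)) hxy hvp
  · obtain ⟨p, hp, hvp⟩ := one_le_dg_iff.1 h2
    exact two_le_dg (x := x) (y := p) (mem_insert_self _ _) (hsub hp)
      (fun h => hx (h ▸ hp)) hxy.symm hvp
  · exact (hQC v hv).trans (dg_mono hsub v)

/-- a core and two vertices with two neighbours in it -/
theorem ins2 (Q : Finset V) (hQ : Q.card = 4) (hQC : Core C Q) (x y : V) (hx : x ∉ Q) (hy : y ∉ Q)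
    (hne : x ≠ y) (h1 : 2 ≤ dg C Q x) (h2 : 2 ≤ dg C Q y) : ∃ P : Finset V, P.card = 6 ∧ Core C P := by
  have hxi : x ∉ insert y Q := by
    rw [mem_insert]
    rintro (h | h)
    · exact hne h
    · exact hx h
  refine ⟨insert x (insert y Q), by rw [card_insert_of_notMem hxi, card_insert_of_notMem hy, hQ], ?_⟩
  have hsub : Q ⊆ insert x (insert y Q) := fun z hz => mem_insert_of_mem (mem_insert_of_mem hz)
  intro v hv
  rw [mem_insert, mem_insert] at hv
  rcases hv with rfl | rfl | hv
  · exact h1.trans (dg_mono hsub v)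
  · exact h2.trans (dg_mono hsub v)
  · exact (hQC v hv).trans (dg_mono hsub v)

/-- a core of size 5 and a vertex with two neighbours in it -/
theorem ins1 (H : Finset V) (hH : H.card = 5) (hHC : Core C H) (x : V) (hx : x ∉ H)
    (h1 : 2 ≤ dg C H x) : ∃ P : Finset V, P.card = 6 ∧ Core C P := by
  refine ⟨insert x H, by rw [card_insert_of_notMem hx, hH], ?_⟩
  intro v hv
  rw [mem_insert] at hv
  rcases hv with rfl | hv
  · exact h1.trans (dg_mono (subset_insert _ _) v)
  · exact (hHC v hv).trans (dg_mono (subset_insert _ _) v)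

/-- two adjacent vertices with `f ≥ 1` -/
theorem pair (H : Finset V) (hH : H.card = 4) (f : V → ℕ) (hf : ∀ x ∈ H, f x ≤ 1)
    (h : (e2 C H = 12 ∧ 3 ≤ ∑ x ∈ H, f x) ∨ (0 < e2 C H ∧ 4 ≤ ∑ x ∈ H, f x)) :
    ∃ x ∈ H, ∃ y ∈ H, C.Adj x y ∧ 1 ≤ f x ∧ 1 ≤ f y := by
  classical
  have hT : ∑ x ∈ H, f x ≤ (H.filter fun x => 1 ≤ f x).card := by
    rw [card_filter]
    refine sum_le_sum fun x hx => ?_
    have := hf x hx
    split_ifs <;> omega
  rcases h with ⟨h1, h2⟩ | ⟨h1, h2⟩
  · obtain ⟨x, hx, y, hy, hxy⟩ := one_lt_card.1 (show 1 < (H.filter fun x => 1 ≤ f x).card by omega)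
    rw [mem_filter] at hx hy
    exact ⟨x, hx.1, y, hy.1, adj_of_full (by rw [hH, h1]) hx.1 hy.1 hxy, hx.2, hy.2⟩
  · have hTe : (H.filter fun x => 1 ≤ f x) = H :=
      eq_of_subset_of_card_le (filter_subset _ _) (by omega)
    obtain ⟨x, hx, hdx⟩ : ∃ x ∈ H, 1 ≤ dg C H x := by
      by_contra hcon
      push Not at hcon
      have : e2 C H = 0 := by
        unfold e2
        apply sum_eq_zero
        intro x hx
        have := hcon x hx
        omega
      omega
    obtain ⟨y, hy, hxy⟩ := one_le_dg_iff.1 hdx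
    have hx' := hTe.symm ▸ hx
    have hy' := hTe.symm ▸ hy
    rw [mem_filter] at hx' hy'
    exact ⟨x, hx, y, hy, hxy, hx'.2, hy'.2⟩

theorem sit2_of (hEP : SpecEP) {w : ℕ} {R D : Finset V} (hs : Sit C w R D) {z0 : V} (hz0 : z0 ∈ D)
    (hz' : dg C D z0 = 0)
    (hcs : ∀ X ⊆ D.erase z0, X.Nonempty → Core C X → X = D.erase z0) :
    Sit2 C w R D z0 (D.erase z0) := by
  have hw := hs.hw
  have hc : (D.erase z0).card + 1 = w := by rw [card_erase_add_one hz0, hs.cD]
  have hne : (D.erase z0).Nonempty := by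
    rw [← card_pos]
    omega
  obtain ⟨hE1, hE2⟩ := hEP V C (D.erase z0) hne hcs
  have he := e2_erase (C := C) hz0
  have hsum : ∑ u ∈ D.erase z0, dg C R u + dg C R z0 = ∑ u ∈ D, dg C R u := sum_erase_add _ _ hz0
  have h3 := hs.h3
  have h4 : e2 C (D.erase z0) + 2 ≤ 2 * w := by omega
  have h5 : 2 * w ≤ e2 C (D.erase z0) + 3 → Core C (D.erase z0) := fun h => hE2 (by omega)
  have h6 : e2 C R + e2 C (D.erase z0) + 2 * (∑ u ∈ D.erase z0, dg C R u) + 2 * dg C R z0 =
      w * (w + 1) + 2 := by
    rw [← h3, ← hsum, he, hz']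
    ring
  exact ⟨hs, hz0, rfl, hc, hcs, h4, h5, h6⟩

end MK5M

open MK5M KEYM

theorem specMK5 (hLG : SpecLG) (hEP : SpecEP) : SpecMK5 := by
  classical
  intro V _ C R D hs
  have h1 := hs.h1
  have h2 := hs.h2
  have h3 := hs.h3
  have hnoA : ∀ P : Finset V, P.card = 6 → Core C P → False := fun P hP hPC => hs.noA P hP hPC
  have hS : ∑ u ∈ D, dg C R u ≤ 5 := by
    calc ∑ u ∈ D, dg C R u ≤ ∑ u ∈ D, 1 := sum_le_sum hs.h1
      _ = 5 := by rw [sum_const, hs.cD, smul_eq_mul, mul_one]
  have bad : ∀ Y ⊆ R, ∀ X ⊆ D, Core C Y → Core C X → Y.card + X.card ≠ 6 := by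
    intro Y hY X hX hYC hXc h7
    have hdis : Disjoint Y X := disjoint_of_subset_left hY (disjoint_of_subset_right hX hs.dis)
    refine hnoA (Y ∪ X) ?_ (hYC.union hXc)
    rw [card_union_of_disjoint hdis]
    omega
  have hRD : ∀ v ∈ R, v ∉ D := fun v hv h => disjoint_left.1 hs.dis hv h
  have hDR : ∀ v ∈ D, v ∉ R := fun v hv h => disjoint_left.1 hs.dis h hv
  by_cases hisoD : ∃ z ∈ D, dg C D z = 0
  · -- `D` has an isolated vertex
    right
    obtain ⟨z0, hz0, hz⟩ := hisoD
    refine ⟨z0, D.erase z0, sit2_of hEP hs hz0 hz ?_⟩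
    have he := e2_erase (C := C) hz0
    rw [hz] at he
    have hce : (D.erase z0).card = 4 := by rw [card_erase_of_mem hz0, hs.cD]
    have heD := e2_le (C := C) (D.erase z0)
    rw [hce] at heD
    have hsum : ∑ u ∈ D.erase z0, dg C R u + dg C R z0 = ∑ u ∈ D, dg C R u := sum_erase_add _ _ hz0
    have hd0 := h1 z0 hz0
    have hev := e2_even (C := C) (D.erase z0)
    have hevR := e2_even (C := C) R
    obtain ⟨k, hk⟩ := hev
    obtain ⟨l, hl⟩ := hevR
    by_cases hR3 : ∃ Y ⊆ R, Core C Y ∧ Y.card = 3
    · obtain ⟨Y, hY, hYC, hYc⟩ := hR3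
      intro X hX hne hXc
      have h5 := hXc.three_le_card hne
      have h6 := bad Y hY X (hX.trans (erase_subset _ _)) hYC hXc
      exact eq_of_subset_of_card_le hX (by omega)
    · exfalso
      push Not at hR3
      have hR12 : e2 C R ≤ 12 := by
        by_contra hcon
        obtain ⟨Y, hY, hYc, hYC⟩ := mantel (C := C) R hs.cR (by omega)
        exact hR3 Y hY hYC hYc
      rcases Nat.lt_or_ge (e2 C R) 12 with hlt | hge
      · -- `e2 R ≤ 10`
        have hD12 : e2 C (D.erase z0) = 12 := by omega
        have hSum5 : ∑ u ∈ D, dg C R u = 5 := by omega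
        obtain ⟨x, hx⟩ : (D.erase z0).Nonempty := card_pos.1 (by omega)
        have hxD := (mem_erase.1 hx).2
        have hxR : 1 ≤ dg C R x := by
          have h5 : ∑ u ∈ D.erase x, dg C R u + dg C R x = ∑ u ∈ D, dg C R u := sum_erase_add _ _ hxD
          have h6 : ∑ u ∈ D.erase x, dg C R u ≤ ∑ u ∈ D.erase x, 1 :=
            sum_le_sum fun u hu => h1 u (mem_erase.1 hu).2
          rw [sum_const, card_erase_of_mem hxD, hs.cD, smul_eq_mul] at h6
          omega
        obtain ⟨p, hp, hxp⟩ := one_le_dg_iff.1 hxR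
        obtain ⟨q, hq⟩ : (R.erase p).Nonempty := card_pos.1 (by
          rw [card_erase_of_mem hp, hs.cR]; omega)
        rw [mem_erase] at hq
        have hqD : q ∉ D.erase z0 := fun h => hRD q hq.2 (mem_erase.1 h).2
        have hpD : p ∉ insert q (D.erase z0) := by
          rw [mem_insert]
          rintro (h | h)
          · exact hq.1 h.symm
          · exact hRD p hp (mem_erase.1 h).2
        have hmx := hs.hmax (insert p (insert q (D.erase z0))) (by
          rw [card_insert_of_notMem hpD, card_insert_of_notMem hqD, hce])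
        rw [e2_insert hpD, e2_insert hqD] at hmx
        have : 1 ≤ dg C (insert q (D.erase z0)) p :=
          one_le_dg_iff.2 ⟨x, mem_insert_of_mem hx, hxp.symm⟩
        omega
      · have hRe : e2 C R = 12 := by omega
        obtain ⟨hRC, hQ⟩ := lemK hEP R hs.cR (fun X hX hXC => hR3 X hX hXC) hRe
        obtain ⟨x, hx, y, hy, hxy, hfx, hfy⟩ := pair (C := C) (D.erase z0) hce (fun u => dg C R u)
          (fun u hu => h1 u (mem_erase.1 hu).2) (by
            rcases Nat.lt_or_ge (e2 C (D.erase z0)) 12 with h5 | h5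
            · right
              constructor
              · omega
              · omega
            · left
              constructor
              · omega
              · omega)
        obtain ⟨p, hp, hxp⟩ := one_le_dg_iff.1 hfx
        obtain ⟨p', hp', hyp⟩ := one_le_dg_iff.1 hfy
        obtain ⟨Q, hQR, hQc, hQC, hpQ, hpQ'⟩ := hQ p p' hp hp'
        obtain ⟨P, hP, hPC⟩ := six Q hQc hQC x y (fun h => hDR x (mem_erase.1 hx).2 (hQR h))
          (fun h => hDR y (mem_erase.1 hy).2 (hQR h)) hxy (one_le_dg_iff.2 ⟨p, hpQ, hxp⟩)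
          (one_le_dg_iff.2 ⟨p', hpQ', hyp⟩)
        exact hnoA P hP hPC
  · left
    push Not at hisoD
    by_cases hisoR : ∃ z ∈ R, dg C R z = 0
    swap
    · push Not at hisoR
      refine ⟨R, D, rfl, hs.dis, hs.cR, hs.cD, fun v hv => ?_, fun v hv => ?_⟩
      · have := hisoR v hv
        omega
      · have := hisoD v hv
        omega
    exfalso
    obtain ⟨z, hz, hzz⟩ := hisoR
    have he := e2_erase (C := C) hz
    rw [hzz] at he
    have hce : (R.erase z).card = 4 := by rw [card_erase_of_mem hz, hs.cR]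
    have heR := e2_le (C := C) (R.erase z)
    rw [hce] at heR
    obtain ⟨k, hk⟩ := e2_even (C := C) (R.erase z)
    obtain ⟨l, hl⟩ := e2_even (C := C) D
    -- a core of size 3 in `R - z`
    obtain ⟨Y, hY, hYc, hYC⟩ : ∃ Y ⊆ R.erase z, Y.card = 3 ∧ Core C Y := by
      rcases hLG V C (R.erase z) ∅ 3 (empty_subset _) (by simp) (by omega) with
        ⟨Y, -, hYR, hYc, hY⟩ | hbad
      · exact ⟨Y, hYR, hYc, fun v hv => hY v hv (notMem_empty v)⟩
      · rw [hce] at hbad
        omega
    have hD3 : ∀ X ⊆ D, Core C X → X.card ≠ 3 := by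
      intro X hX hXC h5
      exact bad Y (hY.trans (erase_subset _ _)) X hX hYC hXC (by omega)
    have hD12 : e2 C D ≤ 12 := by
      by_contra hcon
      obtain ⟨X, hX, hXc, hXC⟩ := mantel (C := C) D hs.cD (by omega)
      exact hD3 X hX hXC hXc
    rcases Nat.lt_or_ge (e2 C D) 12 with hlt | hge
    · -- `e2 D = 10`
      have hD10 : e2 C D = 10 := by omega
      have hR12 : e2 C (R.erase z) = 12 := by omega
      have hSum5 : ∑ u ∈ D, dg C R u = 5 := by omega
      have hfull : ∀ a ∈ R.erase z, ∀ b ∈ R.erase z, a ≠ b → C.Adj a b := fun a ha b hb hab =>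
        adj_of_full (by rw [hce, hR12]) ha hb hab
      have hR'C : Core C (R.erase z) := by
        intro v hv
        have h5 := dg_of_full (C := C) hfull (Subset.refl _) hv
        rw [hce] at h5
        omega
      have hone : ∀ u ∈ D, dg C R u = 1 := by
        intro u hu
        have h5 : ∑ u ∈ D.erase u, dg C R u + dg C R u = ∑ u ∈ D, dg C R u := sum_erase_add _ _ hu
        have h6 : ∑ v ∈ D.erase u, dg C R v ≤ ∑ v ∈ D.erase u, 1 :=
          sum_le_sum fun v hv => h1 v (mem_erase.1 hv).2
        rw [sum_const, card_erase_of_mem hu, hs.cD, smul_eq_mul] at h6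
        have := h1 u hu
        omega
      have hzD : z ∉ D := hRD z hz
      obtain ⟨Dz, hDz⟩ : ∃ S, S = D.filter (fun u => C.Adj u z) := ⟨_, rfl⟩
      obtain ⟨Do, hDo⟩ : ∃ S, S = D.filter (fun u => ¬ C.Adj u z) := ⟨_, rfl⟩
      have mDz : ∀ u, u ∈ Dz ↔ u ∈ D ∧ C.Adj u z := fun u => by rw [hDz, mem_filter]
      have mDo : ∀ u, u ∈ Do ↔ u ∈ D ∧ ¬ C.Adj u z := fun u => by rw [hDo, mem_filter]
      have hdo : ∀ u ∈ Do, ∃ y ∈ R.erase z, C.Adj u y := by
        intro u hu
        rw [mDo] at hu
        have h5 := hone u hu.1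
        obtain ⟨y, hy, huy⟩ := one_le_dg_iff.1 (show 1 ≤ dg C R u by omega)
        exact ⟨y, mem_erase.2 ⟨fun h => hu.2 (h ▸ huy), hy⟩, huy⟩
      have hnotR' : ∀ u ∈ D, u ∉ R.erase z := fun u hu h => hDR u hu (mem_erase.1 h).2
      have c1 : ∀ u ∈ Do, ∀ v ∈ Do, ¬ C.Adj u v := by
        intro u hu v hv huv
        obtain ⟨y, hy, huy⟩ := hdo u hu
        obtain ⟨y', hy', hvy'⟩ := hdo v hv
        obtain ⟨P, hP, hPC⟩ := six (R.erase z) hce hR'C u v (hnotR' u ((mDo u).1 hu).1)
          (hnotR' v ((mDo v).1 hv).1) huv (one_le_dg_iff.2 ⟨y, hy, huy⟩)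
          (one_le_dg_iff.2 ⟨y', hy', hvy'⟩)
        exact hnoA P hP hPC
      have c2 : ∀ u ∈ Dz, ∀ v ∈ Dz, ¬ C.Adj u v := by
        intro u hu v hv huv
        rw [mDz] at hu hv
        have hzu : z ≠ u := fun h => hzD (h ▸ hu.1)
        have hzv : z ≠ v := fun h => hzD (h ▸ hv.1)
        have hX : Core C ({z, u, v} : Finset V) := by
          intro x hx
          have m1 : z ∈ ({z, u, v} : Finset V) := by simp
          have m2 : u ∈ ({z, u, v} : Finset V) := by simp
          have m3 : v ∈ ({z, u, v} : Finset V) := by simp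
          rw [mem_insert, mem_insert, mem_singleton] at hx
          rcases hx with rfl | rfl | rfl
          · exact two_le_dg m2 m3 huv.ne hu.2.symm hv.2.symm
          · exact two_le_dg m1 m3 hzv hu.2 huv
          · exact two_le_dg m1 m2 hzu hv.2 huv.symm
        have hXc : ({z, u, v} : Finset V).card = 3 := card_eq_three.2 ⟨z, u, v, hzu, hzv, huv.ne, rfl⟩
        have hdis : Disjoint Y ({z, u, v} : Finset V) := by
          rw [disjoint_left]
          intro x hx hx'
          have h5 := hY hx
          rw [mem_erase] at h5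
          rw [mem_insert, mem_insert, mem_singleton] at hx'
          rcases hx' with rfl | rfl | rfl
          · exact h5.1 rfl
          · exact hRD _ h5.2 hu.1
          · exact hRD _ h5.2 hv.1
        refine hnoA (Y ∪ {z, u, v}) ?_ (hYC.union hX)
        rw [card_union_of_disjoint hdis, hYc, hXc]
      have hU : Dz ∪ Do = D := by
        rw [hDz, hDo]
        exact filter_union_filter_not_eq _ _
      have hdisj : Disjoint Dz Do := by
        rw [hDz, hDo]
        exact disjoint_filter_filter_not _ _ _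
      have e0 : ∀ S : Finset V, (∀ u ∈ S, ∀ v ∈ S, ¬ C.Adj u v) → e2 C S = 0 := by
        intro S hS
        unfold e2
        apply sum_eq_zero
        intro a ha
        rw [dg_eq_zero_iff]
        intro b hb
        exact hS a ha b hb
      have heU := e2_union (C := C) hdisj
      rw [hU, e0 Dz c2, e0 Do c1] at heU
      have hsumDo : ∑ u ∈ Do, dg C Dz u = 5 := by omega
      have hcard : Dz.card + Do.card = 5 := by
        rw [← card_union_of_disjoint hdisj, hU, hs.cD]
      have hprod : 5 ≤ Do.card * Dz.card := by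
        rw [← hsumDo, ← smul_eq_mul]
        exact sum_le_card_nsmul _ _ _ fun u _ => dg_le_card Dz u
      have hdgD : ∀ u ∈ Do, dg C D u = dg C Dz u := by
        intro u hu
        have h5 := dg_union (C := C) hdisj u
        rw [hU] at h5
        have h6 : dg C Do u = 0 := by
          rw [dg_eq_zero_iff]
          exact fun v hv => c1 u hu v hv
        omega
      have hc23 : (Dz.card = 3 ∧ Do.card = 2) ∨ (Dz.card = 2 ∧ Do.card = 3) := by
        obtain ⟨a, ha⟩ : ∃ a, Dz.card = a := ⟨_, rfl⟩
        obtain ⟨b, hb⟩ : ∃ b, Do.card = b := ⟨_, rfl⟩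
        rw [ha, hb] at hcard hprod
        rw [ha, hb]
        have : a ≤ 5 := by omega
        have hb' : b = 5 - a := by omega
        subst hb'
        interval_cases a <;> omega
      rcases hc23 with ⟨ca, cb⟩ | ⟨ca, cb⟩
      · -- `D + z` is a core
        apply hnoA (insert z D) (by rw [card_insert_of_notMem hzD, hs.cD])
        intro v hv
        rw [mem_insert] at hv
        rcases hv with rfl | hv
        · have h5 : Dz.card ≤ dg C Dz v := by
            unfold dg
            apply card_le_card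
            intro u hu
            rw [mem_filter]
            exact ⟨hu, ((mDz u).1 hu).2.symm⟩
          have h6 := dg_mono (C := C) (show Dz ⊆ insert v D from fun u hu =>
            mem_insert_of_mem ((mDz u).1 hu).1) v
          omega
        · by_cases hvz : C.Adj v z
          · have h5 := dg_insert_adj (C := C) hzD hvz
            have h6 := hisoD v hv
            omega
          · have hvo : v ∈ Do := (mDo v).2 ⟨hv, hvz⟩
            have h5 : ∑ u ∈ Do.erase v, dg C Dz u + dg C Dz v = ∑ u ∈ Do, dg C Dz u :=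
              sum_erase_add _ _ hvo
            have h6 : ∑ u ∈ Do.erase v, dg C Dz u ≤ ∑ u ∈ Do.erase v, 3 :=
              sum_le_sum fun u _ => ca ▸ dg_le_card Dz u
            rw [sum_const, card_erase_of_mem hvo, cb, smul_eq_mul] at h6
            have h7 := hdgD v hvo
            have h8 := dg_mono (C := C) (subset_insert z D) v
            omega
      · -- two vertices adjacent to both of `Dz`
        have hT : 2 ≤ (Do.filter fun u => dg C Dz u = 2).card := by
          have h5 : ∑ u ∈ Do, dg C Dz u ≤ ∑ u ∈ Do, (1 + if dg C Dz u = 2 then 1 else 0) := by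
            refine sum_le_sum fun u _ => ?_
            have := dg_le_card (C := C) Dz u
            split_ifs <;> omega
          rw [sum_add_distrib, sum_const, cb, ← card_filter, smul_eq_mul] at h5
          omega
        obtain ⟨p, hp, q, hq, hpq⟩ := one_lt_card.1 hT
        rw [mem_filter] at hp hq
        have hall : ∀ x, dg C Dz x = 2 → ∀ u ∈ Dz, C.Adj x u := by
          intro x hx u hu
          have h5 : Dz.filter (fun u => C.Adj x u) = Dz := by
            apply eq_of_subset_of_card_le (filter_subset _ _)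
            have h6 : (Dz.filter (fun u => C.Adj x u)).card = dg C Dz x := by
              unfold dg
              congr
            omega
          rw [← h5, mem_filter] at hu
          exact hu.2
        have hpo := (mDo p).1 hp.1
        have hqo := (mDo q).1 hq.1
        have hdQ : Disjoint Dz ({p, q} : Finset V) := by
          rw [disjoint_left]
          intro x hx hx'
          rw [mem_insert, mem_singleton] at hx'
          rcases hx' with rfl | rfl
          · exact hpo.2 ((mDz _).1 hx).2
          · exact hqo.2 ((mDz _).1 hx).2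
        have hQc : (Dz ∪ {p, q}).card = 4 := by
          rw [card_union_of_disjoint hdQ, ca, card_pair hpq]
        have hQD : ∀ x ∈ Dz ∪ {p, q}, x ∈ D := by
          intro x hx
          rw [mem_union, mem_insert, mem_singleton] at hx
          rcases hx with hx | rfl | rfl
          · exact ((mDz _).1 hx).1
          · exact hpo.1
          · exact hqo.1
        have mp : p ∈ Dz ∪ {p, q} := by simp
        have mq : q ∈ Dz ∪ {p, q} := by simp
        have hQC : Core C (Dz ∪ {p, q}) := by
          intro x hx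
          rw [mem_union, mem_insert, mem_singleton] at hx
          rcases hx with hx | rfl | rfl
          · exact two_le_dg mp mq hpq (hall p hp.2 x hx).symm (hall q hq.2 x hx).symm
          · have := dg_mono (C := C) (subset_union_left (s₁ := Dz) (s₂ := {x, q})) x
            omega
          · have := dg_mono (C := C) (subset_union_left (s₁ := Dz) (s₂ := {p, x})) x
            omega
        obtain ⟨y, hy, hpy⟩ := hdo p hp.1
        obtain ⟨y', hy', hqy'⟩ := hdo q hq.1
        have hyQ : y ∉ Dz ∪ {p, q} := fun h => hRD y (mem_erase.1 hy).2 (hQD y h)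
        have hyQ' : y' ∉ Dz ∪ {p, q} := fun h => hRD y' (mem_erase.1 hy').2 (hQD y' h)
        by_cases hyy : y = y'
        · subst hyy
          have hzQ : z ∉ Dz ∪ {p, q} := fun h => hzD (hQD z h)
          have h5 : 2 ≤ dg C (Dz ∪ {p, q}) z := by
            have h6 : Dz.card ≤ dg C Dz z := by
              unfold dg
              apply card_le_card
              intro u hu
              rw [mem_filter]
              exact ⟨hu, ((mDz u).1 hu).2.symm⟩
            have h7 := dg_mono (C := C) (subset_union_left (s₁ := Dz) (s₂ := {p, q})) z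
            omega
          obtain ⟨P, hP, hPC⟩ := ins2 (Dz ∪ {p, q}) hQc hQC z y hzQ hyQ
            (fun h => (mem_erase.1 hy).1 h.symm) h5 (two_le_dg mp mq hpq hpy.symm hqy'.symm)
          exact hnoA P hP hPC
        · obtain ⟨P, hP, hPC⟩ := six (Dz ∪ {p, q}) hQc hQC y y' hyQ hyQ' (hfull y hy y' hy' hyy)
            (one_le_dg_iff.2 ⟨p, mp, hpy.symm⟩) (one_le_dg_iff.2 ⟨q, mq, hqy'.symm⟩)
          exact hnoA P hP hPC
    · -- `e2 D = 12`
      have hDe : e2 C D = 12 := by omega
      obtain ⟨hDC, hQ⟩ := lemK hEP D hs.cD hD3 hDe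
      have hle : ∀ x ∈ R, dg C D x ≤ 1 := by
        intro x hx
        by_contra hcon
        obtain ⟨P, hP, hPC⟩ := ins1 D hs.cD hDC x (hRD x hx) (by omega)
        exact hnoA P hP hPC
      have hcomm : ∑ u ∈ D, dg C R u = ∑ x ∈ R, dg C D x := sum_dg_comm R D
      have hsum : ∑ x ∈ R.erase z, dg C D x + dg C D z = ∑ x ∈ R, dg C D x := sum_erase_add _ _ hz
      have hz1 := hle z hz
      obtain ⟨x, hx, y, hy, hxy, hfx, hfy⟩ := pair (C := C) (R.erase z) hce (fun x => dg C D x)
        (fun x hx => hle x (mem_erase.1 hx).2) (by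
          rcases Nat.lt_or_ge (e2 C (R.erase z)) 12 with h5 | h5
          · right
            constructor
            · omega
            · omega
          · left
            constructor
            · omega
            · omega)
      obtain ⟨p, hp, hxp⟩ := one_le_dg_iff.1 hfx
      obtain ⟨p', hp', hyp⟩ := one_le_dg_iff.1 hfy
      obtain ⟨Q, hQD, hQc, hQC, hpQ, hpQ'⟩ := hQ p p' hp hp'
      obtain ⟨P, hP, hPC⟩ := six Q hQc hQC x y (fun h => hRD x (mem_erase.1 hx).2 (hQD h))
        (fun h => hRD y (mem_erase.1 hy).2 (hQD h)) hxy (one_le_dg_iff.2 ⟨p, hpQ, hxp⟩)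
        (one_le_dg_iff.2 ⟨p', hpQ', hyp⟩)
      exact hnoA P hP hPC

end Pool.Agent.Lib.MP_270b6b_co.MC
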