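import Pool.Agent.Lib.MP_270b6b_co.MC.Spec

/-!
# MP_270b6b_co, module NG: sets without good subsets are sparse
-/

set_option autoImplicit false

namespace Pool.Agent.Lib.MP_270b6b_co.MC

open Pool.Agent.Lib.MP_270b6b_co.MB

open Finset

theorem specNG : SpecNG := by
  intro V _ C R
  have key : ∀ (n : ℕ) (S : Finset V), S.card = n →
      (∀ U ⊆ S, U.Nonempty → ∃ u ∈ U, dg C U u + dg C R u ≤ 1) →
      e2 C S + 2 * ∑ u ∈ S, dg C R u ≤ 2 * S.card := by
    intro n
    induction n with
    | zero =>
      intro S hS _
      rw [card_eq_zero] at hS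
      subst hS
      simp
    | succ n ih =>
      intro S hS h
      obtain ⟨u, hu, h1⟩ := h S (Subset.refl S) (card_pos.1 (by omega))
      have hc : (S.erase u).card = n := by rw [card_erase_of_mem hu]; omega
      have h2 := ih (S.erase u) hc fun U hU hne => h U (hU.trans (erase_subset u S)) hne
      have h3 := e2_erase (C := C) hu
      have h4 := add_sum_erase S (fun u => dg C R u) hu
      rw [hc] at h2
      rw [hS, ← h4, h3]
      omega
  intro S h
  exact key S.card S rfl h

end Pool.Agent.Lib.MP_270b6b_co.MC
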