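import Pool.Agent.Lib.MP_270b6b_co.MC.Spec

/-!
# MP_270b6b, module THR: the case `3 ≤ |U| ≤ w - 2`
-/

set_option autoImplicit false

namespace Pool.Agent.Lib.MP_270b6b_co.MC

open Pool.Agent.Lib.MP_270b6b_co.MB

open Finset

theorem specTHR (hLG : SpecLG) : SpecTHR := by
  intro V _ C w R U u1 u2 x x' hw hcR hdis ht3 htw he hu1 hu2 hu12 hd1 hd2 hd hx hx' ha1 ha2
  obtain ⟨q, hq⟩ : ∃ q, q + U.card = w + 1 := ⟨w + 1 - U.card, by omega⟩
  obtain ⟨t, ht⟩ : ∃ t, t = U.card := ⟨_, rfl⟩
  rw [← ht] at hq ht3 htw he
  have hZsub : ({x, x'} : Finset V) ⊆ R := by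
    intro z hz
    rw [mem_insert, mem_singleton] at hz
    rcases hz with rfl | rfl
    · exact hx
    · exact hx'
  have hZc : ({x, x'} : Finset V).card ≤ q := card_le_two.trans (by omega)
  -- the missing edges at a vertex of `R`
  have hmiss : ∀ v ∈ R, w - 1 - dg C R v ≤ q - 2 := by
    intro v hv
    have h1 := miss_one (C := C) hv
    rw [hcR] at h1
    omega
  rcases hLG V C R {x, x'} q hZsub hZc (by omega) with ⟨X, hZX, hXR, hXc, hX⟩ | h
  · have hxX : x ∈ X := hZX (mem_insert_self _ _)
    have hxX' : x' ∈ X := hZX (mem_insert_of_mem (mem_singleton_self _))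
    have hdisX : Disjoint U X := (disjoint_of_subset_left hXR hdis).symm
    -- a vertex of `X` has a neighbour in `X`
    have hone : ∀ v ∈ X, 1 ≤ dg C X v := by
      intro v hv
      have h1 := miss_mono (C := C) hXR hv
      have h2 := hmiss v (hXR hv)
      rw [hcR, hXc] at h1
      omega
    refine ⟨U ∪ X, ?_, ?_⟩
    · rw [card_union_of_disjoint hdisX, hXc, ← ht]
      omega
    · intro v hv
      rw [dg_union hdisX]
      rcases mem_union.1 hv with hv | hv
      · by_cases e1 : v = u1
        · subst e1
          have : 1 ≤ dg C X v := one_le_dg_iff.2 ⟨x, hxX, ha1⟩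
          omega
        · by_cases e2 : v = u2
          · subst e2
            have : 1 ≤ dg C X v := one_le_dg_iff.2 ⟨x', hxX', ha2⟩
            omega
          · have := hd v hv e1 e2
            omega
      · by_cases e1 : v = x
        · by_cases e2 : v = x'
          · have : 2 ≤ dg C U v :=
              two_le_dg hu1 hu2 hu12 (by rw [e1]; exact ha1.symm) (by rw [e2]; exact ha2.symm)
            omega
          · have h1 : 1 ≤ dg C U v := one_le_dg_iff.2 ⟨u1, hu1, by rw [e1]; exact ha1.symm⟩
            have h2 := hone v hv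
            omega
        · by_cases e2 : v = x'
          · have h1 : 1 ≤ dg C U v := one_le_dg_iff.2 ⟨u2, hu2, by rw [e2]; exact ha2.symm⟩
            have h2 := hone v hv
            omega
          · have h1 := hX v hv (by
              rw [mem_insert, mem_singleton]
              rintro (h | h)
              · exact e1 h
              · exact e2 h)
            omega
  · exfalso
    rw [hcR] at h
    have h1 : w + 1 - q = t := by omega
    rw [h1] at h
    obtain ⟨s, hs⟩ : ∃ s, q = s + 3 := ⟨q - 3, by omega⟩
    have h2 : q - 2 = s + 1 := by omega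
    rw [h2] at h
    have h3 : 3 * (s + 1) ≤ t * (s + 1) := Nat.mul_le_mul_right _ ht3
    omega

end Pool.Agent.Lib.MP_270b6b_co.MC
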