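import Pool.Agent.Lib.MP_270b6b_co.MC.Spec

/-!
# MP_270b6b, MB: module TWO, the case `|U| = 2` (helper45)
-/

set_option autoImplicit false

namespace Pool.Agent.Lib.MP_270b6b_co.MC

open Pool.Agent.Lib.MP_270b6b_co.MB

open Finset

namespace TWOM

theorem build {V : Type} [DecidableEq V] {C : SimpleGraph V} {w : ℕ} {R : Finset V}
    {u1 u2 x x' y : V} (hw : 5 ≤ w) (hR : R.card = w) (hu1 : u1 ∉ R) (hu2 : u2 ∉ R) (hu : u1 ≠ u2)
    (h12 : C.Adj u1 u2) (hx : x ∈ R) (hx' : x' ∈ R) (h1x : C.Adj u1 x) (h2x : C.Adj u2 x')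
    (hy : y ∈ R) (hyx : y ≠ x) (hyx' : y ≠ x')
    (hlow : ∀ v ∈ R.erase y, v ≠ x → v ≠ x' → 2 ≤ dg C (R.erase y) v)
    (hd : 1 ≤ dg C (R.erase y) x) (hd' : 1 ≤ dg C (R.erase y) x') :
    ∃ P : Finset V, P.card = w + 1 ∧ Core C P := by
  have hXR : R.erase y ⊆ R := erase_subset _ _
  have h1X : u1 ∉ insert u2 (R.erase y) := by
    rw [mem_insert]
    rintro (h | h)
    · exact hu h
    · exact hu1 (hXR h)
  have h2X : u2 ∉ R.erase y := fun h => hu2 (hXR h)
  refine ⟨insert u1 (insert u2 (R.erase y)), ?_, ?_⟩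
  · rw [card_insert_of_notMem h1X, card_insert_of_notMem h2X, card_erase_of_mem hy, hR]
    omega
  have hsub : R.erase y ⊆ insert u1 (insert u2 (R.erase y)) := fun z hz =>
    mem_insert_of_mem (mem_insert_of_mem hz)
  have hxP : x ∈ insert u1 (insert u2 (R.erase y)) := hsub (mem_erase.2 ⟨hyx.symm, hx⟩)
  have hx'P : x' ∈ insert u1 (insert u2 (R.erase y)) := hsub (mem_erase.2 ⟨hyx'.symm, hx'⟩)
  have hu1P : u1 ∈ insert u1 (insert u2 (R.erase y)) := mem_insert_self _ _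
  have hu2P : u2 ∈ insert u1 (insert u2 (R.erase y)) := mem_insert_of_mem (mem_insert_self _ _)
  have hneR : ∀ a b : V, a ∉ R → b ∈ R → a ≠ b := by
    rintro a b ha hb rfl
    exact ha hb
  intro v hv
  by_cases e1 : v = u1
  · subst e1
    exact two_le_dg hu2P hxP (hneR _ _ hu2 hx) h12 h1x
  by_cases e2 : v = u2
  · subst e2
    exact two_le_dg hu1P hx'P (hneR _ _ hu1 hx') h12.symm h2x
  by_cases e3 : v = x
  · subst e3
    obtain ⟨z, hz, hvz⟩ := one_le_dg_iff.1 hd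
    exact two_le_dg hu1P (hsub hz) (hneR _ _ hu1 (hXR hz)) h1x.symm hvz
  by_cases e4 : v = x'
  · subst e4
    obtain ⟨z, hz, hvz⟩ := one_le_dg_iff.1 hd'
    exact two_le_dg hu2P (hsub hz) (hneR _ _ hu2 (hXR hz)) h2x.symm hvz
  have hvX : v ∈ R.erase y := by
    rcases mem_insert.1 hv with h | h
    · exact absurd h e1
    · rcases mem_insert.1 h with h | h
      · exact absurd h e2
      · exact h
  have h3 := hlow v hvX e3 e4
  have h5 := dg_mono (C := C) hsub v
  omega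

end TWOM

open TWOM in
theorem specTWO : SpecTWO := by
  intro V _ C w R u1 u2 x x' hw hR he hu1 hu2 hu h12 hx hx' h1x h2x
  have hone : ∀ v ∈ R, 1 ≤ dg C R v := by
    intro v hv
    have h1 := miss_one (C := C) hv
    rw [hR] at h1
    omega
  by_cases hv0 : ∃ v0 ∈ R, v0 ≠ x ∧ v0 ≠ x' ∧ dg C R v0 ≤ 2
  · obtain ⟨v0, hv0R, hvx, hvx', hv2⟩ := hv0
    have hall : ∀ v ∈ R.erase v0, 2 ≤ dg C (R.erase v0) v := by
      intro v hv
      have h1 := miss_one (C := C) hv
      have h2 := e2_erase (C := C) hv0R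
      rw [card_erase_of_mem hv0R, hR] at h1
      obtain ⟨k, rfl⟩ : ∃ k, w = k + 2 := ⟨w - 2, by omega⟩
      have e1 : k + 2 - 1 = k + 1 := by omega
      have e2' : k + 2 - 1 - 1 = k := by omega
      rw [e1] at he
      rw [e2', e1] at h1
      have e3 : (k + 2) * (k + 1) = (k + 1) * k + 2 * k + 2 := by ring
      omega
    exact build hw hR hu1 hu2 hu h12 hx hx' h1x h2x hv0R hvx hvx' (fun v hv _ _ => hall v hv)
      ((hall x (mem_erase.2 ⟨hvx.symm, hx⟩)).trans' (by omega))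
      ((hall x' (mem_erase.2 ⟨hvx'.symm, hx'⟩)).trans' (by omega))
  · push Not at hv0
    obtain ⟨g, hg, hxg⟩ := one_le_dg_iff.1 (hone x hx)
    obtain ⟨g', hg', hxg'⟩ := one_le_dg_iff.1 (hone x' hx')
    obtain ⟨y, hyR, hy⟩ : ∃ y ∈ R, y ∉ ({x, x', g, g'} : Finset V) := by
      by_contra hc
      push Not at hc
      have h1 : R ⊆ ({x, x', g, g'} : Finset V) := fun z hz => hc z hz
      have h2 := card_le_card h1
      have h3 : ({x, x', g, g'} : Finset V).card ≤ 4 := by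
        refine (card_insert_le _ _).trans ?_
        have := (card_insert_le x' ({g, g'} : Finset V))
        have h4 := (card_insert_le g ({g'} : Finset V))
        rw [card_singleton] at h4
        omega
      omega
    simp only [mem_insert, mem_singleton, not_or] at hy
    obtain ⟨hyx, hyx', hyg, hyg'⟩ := hy
    refine build hw hR hu1 hu2 hu h12 hx hx' h1x h2x hyR hyx hyx' ?_ ?_ ?_
    · intro v hv h1 h2
      have h3 := hv0 v (mem_erase.1 hv).2 h1 h2
      have h4 := dg_le_erase (C := C) R y v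
      omega
    · exact one_le_dg_iff.2 ⟨g, mem_erase.2 ⟨Ne.symm hyg, hg⟩, hxg⟩
    · exact one_le_dg_iff.2 ⟨g', mem_erase.2 ⟨Ne.symm hyg', hg'⟩, hxg'⟩

end Pool.Agent.Lib.MP_270b6b_co.MC
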