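import Pool.Agent.Lib.MP_270b6b_co.MC.LM
import Pool.Agent.Lib.MP_270b6b_co.MC.LG
import Pool.Agent.Lib.MP_270b6b_co.MC.EXT
import Pool.Agent.Lib.MP_270b6b_co.MC.KEY
import Pool.Agent.Lib.MP_270b6b_co.MC.MK5
import Pool.Agent.Lib.MP_270b6b_co.MC.EP
import Pool.Agent.Lib.MP_270b6b_co.MC.ED
import Pool.Agent.Lib.MP_270b6b_co.MC.ISR
import Pool.Agent.Lib.MP_270b6b_co.MC.NG
import Pool.Agent.Lib.MP_270b6b_co.MC.MGA
import Pool.Agent.Lib.MP_270b6b_co.MC.MGB
import Pool.Agent.Lib.MP_270b6b_co.MC.BND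
import Pool.Agent.Lib.MP_270b6b_co.MC.TWO
import Pool.Agent.Lib.MP_270b6b_co.MC.THR
import Pool.Agent.Lib.MP_270b6b_co.MC.FOU
import Pool.Agent.Lib.MP_270b6b_co.MC.FB
import Pool.Agent.Lib.MP_270b6b_co.MC.MAKE
import Pool.Agent.Lib.MP_270b6b_co.MC.FIN
import Pool.Agent.Lib.MP_270b6b_co.MC.CPL
import Pool.Agent.Lib.MP_270b6b_co.MC.GRA

/-!
# MP_270b6b: on `2 n + 2` vertices the assertion holds for every `n ≥ 4`
-/

set_option autoImplicit false

namespace Pool.Agent.Lib.MP_270b6b_co.MC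

open Pool.Agent.Lib.MP_270b6b_co.MB

theorem twoNPlusTwo : SpecGRA := by
  have hEP : SpecEP := specEP specLM
  have hED : SpecED := specED specLM hEP
  have hMAKE : SpecMAKE := specMAKE (specKEY specLM specLG hED) hEP hED specISR (specMK5 specLG hEP)
  have hFIN : SpecFIN :=
    specFIN (specMGA specNG) (specMGB hEP) specBND specTWO (specTHR specLG) specFOU specFB
  exact specGRA (specCPL specEXT hMAKE hFIN)

end Pool.Agent.Lib.MP_270b6b_co.MC
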