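import Pool.Agent.Lib.MP_270b6b_co.MB.Base

/-!
# MP_270b6b, `m = 2 n + 2`: the assertion holds for every `n ≥ 4`. Statements of the modules with proofs.

`w = n + 1 ≥ 5`; `C` is the complement of the graph, on `2 w` vertices, with `C(w+1, 2) + 1` edges, i.e.
`e2 C univ = w (w + 1) + 2` (recall that `e2` is TWICE the number of edges). Wanted:
(a) a core `P` (every vertex of `P` has two neighbours in `P`) with `|P| = w + 1`, or
(b) a partition in two sets of size `w` without isolated vertices.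

Suppose that (a) fails. `P` with `|P| = w + 1` and most edges is not a core, so `P = R + v` and with
`D = ` complement of `R`: every vertex of `D` has at most one neighbour in `R` (module EXT). Let `r` be the number of
missing edges of `R` (`e2 R + 2 r = w (w - 1)`) and `σ` the number of `u ∈ D` without a neighbour in `R`;
then `e(D) = 1 + r + σ`, i.e. field `h3` below.

All modules are independent; the other Specs are hypotheses in the order written in the docstring.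
Everything about `dg`, `e2`, `Core`, `cs` which one needs is in `Base.lean` (read it first): `dg_mono`,
`dg_union`, `dg_insert_adj`, `dg_erase_adj`, `dg_le_add`, `dg_lt_card`, `miss_mono`, `miss_one`, `miss_two`,
`adj_of_full`, `dg_of_full`, `e2_union`, `e2_insert`, `e2_erase`, `e2_mono`, `e2_even`, `e2_le`,
`one_le_dg_iff`, `two_le_dg`, `two_le_dg_iff`, `Core.union`, `Core.three_le_card`, `mem_cs`, `cs_mono`.
-/

set_option autoImplicit false

namespace Pool.Agent.Lib.MP_270b6b_co.MC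

open Pool.Agent.Lib.MP_270b6b_co.MB

open Finset

/-- The situation when (a) fails. -/
structure Sit {V : Type} [DecidableEq V] (C : SimpleGraph V) (w : ℕ) (R D : Finset V) : Prop where
  hw : 5 ≤ w
  cR : R.card = w
  cD : D.card = w
  dis : Disjoint R D
  h1 : ∀ u ∈ D, dg C R u ≤ 1
  h2 : e2 C D ≤ e2 C R + 2
  h3 : e2 C R + e2 C D + 2 * ∑ u ∈ D, dg C R u = w * (w + 1) + 2
  noA : ∀ P : Finset V, P.card = w + 1 → ¬ Core C P
  hmax : ∀ P : Finset V, P.card = w + 1 → e2 C P ≤ e2 C R + 2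

/-- The conclusion (b). -/
def Bal {V : Type} [DecidableEq V] (C : SimpleGraph V) (w : ℕ) (R D : Finset V) : Prop :=
  ∃ A B : Finset V, A ∪ B = R ∪ D ∧ Disjoint A B ∧ A.card = w ∧ B.card = w ∧
    (∀ v ∈ A, 1 ≤ dg C A v) ∧ (∀ v ∈ B, 1 ≤ dg C B v)

/-- `U` is good: a nonempty subset of `D'` such that for each `u ∈ U` the number of neighbours in `U` plus the
number of neighbours in `R` is at least two. -/
structure GoodU {V : Type} [DecidableEq V] (C : SimpleGraph V) (R D' U : Finset V) : Prop where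
  ne : U.Nonempty
  sub : U ⊆ D'
  deg : ∀ u ∈ U, 2 ≤ dg C U u + dg C R u

/-- The situation when moreover `D` has an isolated vertex `z0`; `D' = D - z0` (`|D'| = w - 1`). -/
structure Sit2 {V : Type} [DecidableEq V] (C : SimpleGraph V) (w : ℕ) (R D : Finset V) (z0 : V)
    (D' : Finset V) : Prop where
  sit : Sit C w R D
  hz0 : z0 ∈ D
  hD' : D' = D.erase z0
  cD' : D'.card + 1 = w
  cores : ∀ X ⊆ D', X.Nonempty → Core C X → X = D'
  /-- `e(D') ≤ w - 1` -/
  eD' : e2 C D' + 2 ≤ 2 * w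
  /-- if `e(D') = w - 1` then `D'` is a core -/
  eC : 2 * w ≤ e2 C D' + 3 → Core C D'
  /-- `r + w = e(D') + att(D') + att(z0) - 1`, where `att` counts neighbours in `R` -/
  cnt : e2 C R + e2 C D' + 2 * (∑ u ∈ D', dg C R u) + 2 * dg C R z0 = w * (w + 1) + 2

/-- **LM** (120 lines). `t` = number of sizes of nonempty cores in `H`; then `e(H) ≤ |H| - 1 + C(t+1, 2)`.
Proof. Strong induction on `|H|`. `|H| = 1`: `e2 = 0`. Let `|H| ≥ 2` and `v ∈ H` with minimal `a = dg H v`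
(`exists_min_image`), `H' = H - v`, `t' = |cs H'|`. `e2 H = e2 H' + 2 a` (`e2_erase`). `cs H' ⊆ cs H`. If `a ≤ 1`:
clear. If `a ≥ 2`: `|H| ∈ cs H`, `|H| ∉ cs H'`, so `t ≥ t' + 1`. For each `j ≤ a - 2` the set `H` minus any `j`
vertices is a core (`dg_le_add`), so `|H| - j ∈ cs H` for `j = 0, .., a - 2` and `t ≥ a - 1`
(note `|H| ≥ a + 1`). So `e2 H + 2 ≤ 2 (|H| - 1) + t' (t' + 1) + 2 a ≤ 2 |H| + (t - 1) t + 2 (a - 1)
≤ 2 |H| + (t - 1) t + 2 t = 2 |H| + t (t + 1)`. -/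
def SpecLM : Prop := ∀ (V : Type) [DecidableEq V] (C : SimpleGraph V) (H : Finset V), H.Nonempty →
  e2 C H + 2 ≤ 2 * H.card + (cs C H).card * ((cs C H).card + 1)

/-- **LG** (80 lines). Either there is `X` with `Z ⊆ X ⊆ R`, `|X| = x`, all vertices of `X \ Z` having two
neighbours in `X`, or `R` misses at least `(|R| + 1 - x) (x - 2)` edges.
Proof. If `x ≤ 2` the second alternative is `e2_le`. Let `x ≥ 3`. Induction on `|R|` (or on `|R| - x`).
If every `v ∈ R \ Z` has at most `x - 3` missing edges in `R`, i.e. `|R| - 1 - dg R v ≤ x - 3`: take any `X`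
with `Z ⊆ X ⊆ R`, `|X| = x` (`exists_subsuperset_card_eq`); by `miss_mono` `x - 1 - dg X v ≤ x - 3`. Otherwise there is
`v ∈ R \ Z` with `|R| - 1 - dg R v ≥ x - 2`. If `|R| = x`: by `miss_one` we are done. If `|R| > x`: apply the
induction hypothesis to `R - v`; in the second case `e2 (R - v) + 2 (|R| - x) (x - 2) ≤ (|R| - 1) (|R| - 2)` and
`e2 R = e2 (R - v) + 2 dg R v`, `dg R v ≤ |R| - 1 - (x - 2)`. -/
def SpecLG : Prop := ∀ (V : Type) [DecidableEq V] (C : SimpleGraph V) (R Z : Finset V) (x : ℕ),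
  Z ⊆ R → Z.card ≤ x → x ≤ R.card →
  (∃ X : Finset V, Z ⊆ X ∧ X ⊆ R ∧ X.card = x ∧ ∀ v ∈ X, v ∉ Z → 2 ≤ dg C X v) ∨
    e2 C R + 2 * ((R.card + 1 - x) * (x - 2)) ≤ R.card * (R.card - 1)

/-- **EXT** (90 lines). The extremal choice.
Proof. Among the sets `P` with `|P| = w + 1 ≤ 2 w` (`powersetCard (w + 1) univ`, nonempty) choose one with `e2 C P` maximal
(`exists_max_image`). It is not a core: `v ∈ P` with `dg P v ≤ 1`. `R = P.erase v`, `D = univ \ R`.
`dg R v = dg P v ≤ 1` and `e2 P = e2 R + 2 dg R v`. `u ∈ D`: `P' = insert u R` has `|P'| = w + 1`,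
`e2 P' = e2 R + 2 dg R u ≤ e2 P`, so `dg R u ≤ dg R v ≤ 1`. `h2`: take any `z ∈ R`, `P' = insert z D`,
`e2 D ≤ e2 P' ≤ e2 P ≤ e2 R + 2`. `h3`: `e2_union`. -/
def SpecEXT : Prop := ∀ (V : Type) [Fintype V] [DecidableEq V] (C : SimpleGraph V) (w : ℕ), 5 ≤ w →
  Fintype.card V = 2 * w → e2 C univ = w * (w + 1) + 2 →
  (∀ P : Finset V, P.card = w + 1 → ¬ Core C P) → ∃ R D : Finset V, R ∪ D = univ ∧ Sit C w R D

/-- **KEY** (hypotheses SpecLM, SpecLG). If `R` or `D` has an isolated vertex then all nonempty cores in `D` have size at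
least `w - 1`.
Proof. Let `s = |cs R|`, `t = |cs D|`. Cores have size at least 3. If `i ∈ cs D` then `w + 1 - i ∉ cs R`: otherwise the union
of the two disjoint cores would be a core of size `w + 1` (`noA`). `i ↦ w + 1 - i` maps `cs D ⊆ [3, w]` injectively into
`[1, w - 2]`, and the image is disjoint from `cs R ⊆ [1, w]`; let `U ⊆ [1, w]` be the union. If `R` has an isolated vertex then
`w ∉ U`, if `D` has one then `1 ∉ U`; so `s + t ≤ w - 1`, and if `s + t = w - 1` then `w - 1 ∈ cs R`, `w - 1 ∈ cs D` and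
`w` is in `cs D`, `cs R` respectively. LM for `R` and `D` without the isolated vertex gives `e2 R + e2 D + 6 ≤ 4 w + s (s + 1) + t (t + 1)`,
and `h3`: `w ^ 2 + w + 2 ≤ e2 R + e2 D + 2 w`. Suppose `t ≥ 3`. `s ≤ 2`: by `h2` `e2 D ≤ e2 R + 2`, false. So `s ≥ 3`, and the
inequalities give `s + t = w - 1`, `w ≤ 8`. So `R` and `D` are cores after removal of the isolated vertex. For a core `H` of minimum degree
`a` with `t` sizes removing a vertex of degree `a` gives `e2 H + 2 + 2 (t + 1) ≤ 2 |H| + t (t + 1) + 2 a`, `|H| a ≤ e2 H`;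
this for both is a contradiction for `w = 7`, `w = 8`. So `t ≤ 2`. Let `X ⊆ D` be a core, `3 ≤ |X| ≤ w - 2`,
`i = w + 1 - |X|`, `3 ≤ i ≤ w - 2`. If `z ∈ D` is isolated: `e2 D ≤ 2 w + 2`, `R` misses at most `w` edges, and by LG (`i ≥ 4`) and
Mantel's theorem (`i = 3`) `R` contains a core of size `i`. If `z ∈ R` is isolated: `R - z` misses at most two edges, LG. -/
def SpecKEY : Prop := ∀ (V : Type) [DecidableEq V] (C : SimpleGraph V) (w : ℕ) (R D : Finset V),
  Sit C w R D → 6 ≤ w → ((∃ z ∈ R, dg C R z = 0) ∨ ∃ z ∈ D, dg C D z = 0) →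
  ∀ X ⊆ D, X.Nonempty → Core C X → w ≤ X.card + 1

/-- **EP** (50 lines; hypothesis SpecLM). If `H` is the only possible nonempty core in `H` then `e(H) ≤ |H|`, and if
`e(H) ≥ |H|` then `H` is a core.
Proof. `cs H ⊆ {|H|}`, so `t ≤ 1` and LM gives `e2 H + 2 ≤ 2 |H| + 2`. If `H` is not a core, `cs H = ∅` and
LM gives `e2 H + 2 ≤ 2 |H|`. -/
def SpecEP : Prop := ∀ (V : Type) [DecidableEq V] (C : SimpleGraph V) (H : Finset V), H.Nonempty →
  (∀ X ⊆ H, X.Nonempty → Core C X → X = H) →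
  e2 C H ≤ 2 * H.card ∧ (2 * H.card ≤ e2 C H + 1 → Core C H)

/-- **ED** (120 lines; hypotheses SpecLM, SpecEP). If all nonempty cores in `D` have size at least `w - 1` then
`e(D) ≤ w = |D|`.
Proof. `cs D ⊆ {w - 1, w}`, so LM gives `e2 D ≤ 2 w - 2 + 6 = 2 w + 4`. Suppose `e2 D > 2 w`; by `e2_even`
`e2 D ≥ 2 w + 2`. For every `v ∈ D` the set `D - v` satisfies the hypothesis of EP (a nonempty core inside `D - v` has size
`≥ w - 1 = |D - v|`), so `e2 (D - v) ≤ 2 (w - 1)` and `D - v` is a core if `e2 (D - v) ≥ 2 (w - 1) - 1`. From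
`e2 D = e2 (D - v) + 2 dg D v`: `dg D v ≥ 2` for all `v ∈ D` (as `2 w + 2 ≤ 2 w - 2 + 2 dg`). Some `v` has `dg D v = 2`
(otherwise `e2 D ≥ 3 w > 2 w + 4`); so `e2 D ≤ 2 w + 2`, i.e. `e2 D = 2 w + 2`. For every `u ∈ D` with `dg D u = 2`:
`e2 (D - u) = 2 w - 2`, so `D - u` is a core, so every neighbour `y ∈ D` of `u` has `dg D y = dg (D - u) y + 1 ≥ 3`.
Let `p ≠ q` be the two neighbours of `v` in `D` (`two_le_dg_iff`). `∑_{u ∈ D} (dg D u - 2) = 2`, so `dg D p = dg D q = 3` and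
`dg D u = 2` for all `u ∈ D \ {p, q}`. Such a `u` has two neighbours in `D` (`two_le_dg_iff`), which have degree `≥ 3`, hence are `p` and
`q`. So `p` is adjacent to all `w - 2 ≥ 4` vertices of `D \ {p, q}`: contradiction with `dg D p = 3`. -/
def SpecED : Prop := ∀ (V : Type) [DecidableEq V] (C : SimpleGraph V) (w : ℕ) (D : Finset V), 6 ≤ w →
  D.card = w → (∀ X ⊆ D, X.Nonempty → Core C X → w ≤ X.card + 1) → e2 C D ≤ 2 * w

/-- **ISR** (150 lines). If `e(D) ≤ w` then `R` has no isolated vertex.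
Proof. Let `z ∈ R` with `dg R z = 0`, `R' = R - z`, `e2 R = e2 R' ≤ (w - 1) (w - 2)` (`e2_le`). By `h1` `∑ ≤ w`. `h3`:
`w (w + 1) + 2 ≤ (w - 1) (w - 2) + 2 w + 2 w`; this is an EQUALITY, so `e2 R' = (w - 1) (w - 2)` (hence
`R'` is complete, `adj_of_full`), `e2 D = 2 w`, `∑_{u ∈ D} dg R u = w`, so `dg R u = 1` for all `u ∈ D`
(as all are `≤ 1`). Every subset `Y ⊆ R'` with `|Y| ≥ 3` is a core (`dg_of_full`), and so every vertex of `Y` is fine in
every set which contains `Y`. In each case below a core with `w + 1` vertices contradicts `noA`.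
Case 1: `u, u' ∈ D` adjacent, both not adjacent to `z`: `{u, u'} ∪ R'`; `u` is adjacent to `u'` and to a vertex of `R'`.
Case 2: `u, u' ∈ D` adjacent, both adjacent to `z`: `{u, u', z} ∪ Y`, `Y ⊆ R'`, `|Y| = w - 2`.
Case 3: every edge of `D` has exactly one end in `Dz = {u ∈ D adjacent to z}`. Let `Do = D \ Dz`. Then `e2 Dz = 0 = e2 Do`,
`e2 D = 2 ∑_{u ∈ Do} dg Dz u = 2 w` (`e2_union`), so some `u' ∈ Do` has `dg Dz u' ≥ 2`: otherwise `w ≤ |Do|`, so `Dz = ∅` and
`dg Dz u = 0`, contradiction. Let `u1 ≠ u2` be two neighbours of `u'` in `Dz`: `{z, u1, u', u2} ∪ Y` with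
`Y ⊆ R'`, `|Y| = w - 3 ≥ 3`: `z`: `u1, u2`; `u1`: `z, u'`; `u2`: `z, u'`; `u'`: `u1, u2`. -/
def SpecISR : Prop := ∀ (V : Type) [DecidableEq V] (C : SimpleGraph V) (w : ℕ) (R D : Finset V),
  Sit C w R D → 6 ≤ w → e2 C D ≤ 2 * w → ∀ z ∈ R, 1 ≤ dg C R z

/-- **NG** (40 lines). If no nonempty subset `U` of `S` is good then `e(S) + att(S) ≤ |S|`.
Proof. Induction on `|S|`: take `U = S` (if nonempty): `u ∈ S` with `dg S u + dg R u ≤ 1`;
`e2 S = e2 (S - u) + 2 dg S u` (`e2_erase`), `∑_S = ∑_{S - u} + dg R u`. -/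
def SpecNG : Prop := ∀ (V : Type) [DecidableEq V] (C : SimpleGraph V) (R S : Finset V),
  (∀ U ⊆ S, U.Nonempty → ∃ u ∈ U, dg C U u + dg C R u ≤ 1) →
  e2 C S + 2 * ∑ u ∈ S, dg C R u ≤ 2 * S.card

/-- **MGA** (90 lines; hypothesis SpecNG). There is a good set of minimal size, and it satisfies
`e(U) + att(U) ≤ |U| + 1`.
Proof. If `D'` had no good subset, NG would give `e2 D' + 2 ∑_{D'} ≤ 2 |D'| = 2 w - 2`; but `e2 R ≤ w (w - 1)` (`e2_le`),
`dg R z0 ≤ 1` and `cnt` give `w (w + 1) + 2 ≤ w (w - 1) + 2 w - 2 + 2`, false. So there is a good set; choose `U` good of minimal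
cardinality (`exists_min_image` on `D'.powerset.filter ..` or `Nat.find`). Some `u ∈ U` has `dg U u + dg R u = 2`: otherwise all are
`≥ 3`, take any `u ∈ U`; `U - u` is nonempty (if `U = {u}` then `dg U u = 0`, `dg R u ≤ 1`), and good
(`dg_le_erase`): contradiction. `U - u` has no good subset (minimality), so by NG `e2 (U - u) + 2 ∑_{U - u} ≤ 2 (|U| - 1)`; add
`2 dg U u + 2 dg R u = 4`. (`dg R u ≤ 1` for `u ∈ D'` is `h1`.) -/
def SpecMGA : Prop := ∀ (V : Type) [DecidableEq V] (C : SimpleGraph V) (w : ℕ) (R D : Finset V) (z0 : V)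
  (D' : Finset V), Sit2 C w R D z0 D' →
  ∃ U : Finset V, GoodU C R D' U ∧ (∀ U' : Finset V, GoodU C R D' U' → U.card ≤ U'.card) ∧
    e2 C U + 2 * ∑ u ∈ U, dg C R u ≤ 2 * U.card + 2

/-- **MGB** (150 lines; hypothesis SpecEP). The two possible shapes of a minimal good set.
(1) `U = D'` is a core, exactly one vertex `u1` of `D'` has a neighbour in `R`, `R` is complete, `z0` has a neighbour in `R`; or
(2) exactly two vertices `u1 ≠ u2` of `U` have a neighbour in `R`, they have one neighbour in `U`, and the other vertices of `U`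
have two neighbours in `U`.
Proof. `a = ∑_{u ∈ U} dg R u`, `t = |U|`. `∑_{u ∈ U} (dg U u + dg R u) = e2 U + a ≥ 2 t` and `e2 U + 2 a ≤ 2 t + 2`,
so `a ≤ 2`. `dg R u ≤ 1` for `u ∈ U` (`h1`), so the number of `u ∈ U` with `dg R u = 1` is `a`.
`a = 0`: `U` is a core, so `U = D'` (`cores`), `∑_{D'} = 0` and `cnt`, `e2 R ≤ w (w - 1)`, `eD'`, `dg R z0 ≤ 1`:
`w (w + 1) + 2 ≤ w (w - 1) + (2 w - 2) + 0 + 2`, false.
`a = 1`: `e2 U ≥ 2 t - 1`, so there is a nonempty core inside `U`: otherwise EP (its hypothesis holds trivially) gives that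
`U` is a core. By `cores` it is `D'`, so `U = D'` and `D'` is a core. `∑_{D'} = 1`; `cnt` and `eD'`:
`w (w + 1) + 2 ≤ e2 R + (2 w - 2) + 2 + 2 dg R z0`, so `dg R z0 = 1` and `e2 R = w (w - 1)`, as `e2 R ≤ w (w - 1)`.
`a = 2`: `e2 U ≤ 2 t - 2` and `e2 U + 2 ≥ 2 t`: equality in `∑ (dg U u + dg R u) ≥ 2 t`, so every `u ∈ U` has
`dg U u + dg R u = 2`; two vertices `u1 ≠ u2` have `dg R = 1`, the others have `dg R = 0`. -/
def SpecMGB : Prop := ∀ (V : Type) [DecidableEq V] (C : SimpleGraph V) (w : ℕ) (R D : Finset V) (z0 : V)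
  (D' U : Finset V), Sit2 C w R D z0 D' → GoodU C R D' U →
    e2 C U + 2 * ∑ u ∈ U, dg C R u ≤ 2 * U.card + 2 →
  (U = D' ∧ Core C D' ∧ e2 C R = w * (w - 1) ∧ dg C R z0 = 1 ∧ ∃ u1 ∈ D', dg C R u1 = 1) ∨
  (e2 C U + 2 = 2 * U.card ∧ ∑ u ∈ U, dg C R u = 2 ∧
    ∃ u1 ∈ U, ∃ u2 ∈ U, u1 ≠ u2 ∧ dg C R u1 = 1 ∧ dg C R u2 = 1 ∧ dg C U u1 = 1 ∧ dg C U u2 = 1 ∧
      ∀ u ∈ U, u ≠ u1 → u ≠ u2 → dg C R u = 0 ∧ dg C U u = 2)

/-- **BND** (120 lines). In case (2) of MGB: `R` misses at most `w - |U|` edges, and at most `w - 1 - |U|` if `|U| ≥ 3`.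
Proof. `t = |U|`, `r` = number of missing edges of `R`, `A = ∑_{D'} dg R u`. `cnt` says (with `2 r = w (w - 1) - e2 R`):
`2 r + 2 w + 2 = e2 D' + 2 A + 2 dg R z0`. Always `dg R z0 ≤ 1`, and `A ≤ 2 + (w - 1 - t)` (the part of the sum over `U` is 2, the
others are `≤ 1` by `h1`, `|D'| = w - 1`). With `eD'` (`e2 D' ≤ 2 w - 2`): `2 r ≤ 2 (w - t)`, the first claim. Let `t ≥ 3`. If
`e2 D' ≤ 2 w - 4`: second claim. Otherwise, by `e2_even`, `e2 D' = 2 w - 2` and `D'` is a core (`eC`), so `dg D' u1 ≥ 2`,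
while `dg U u1 = 1`: there is `u0 ∈ D' \ U` adjacent to `u1`. `dg R u0 = 0`: otherwise `{u0, u1}` is good of size `2 < t`.
So `A ≤ 2 + (w - 2 - t)`, and the second claim. -/
def SpecBND : Prop := ∀ (V : Type) [DecidableEq V] (C : SimpleGraph V) (w : ℕ) (R D : Finset V) (z0 : V)
  (D' U : Finset V) (u1 : V), Sit2 C w R D z0 D' → GoodU C R D' U →
    (∀ U' : Finset V, GoodU C R D' U' → U.card ≤ U'.card) → ∑ u ∈ U, dg C R u = 2 →
    u1 ∈ U → dg C R u1 = 1 → dg C U u1 = 1 →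
  w * (w - 1) + 2 * U.card ≤ e2 C R + 2 * w ∧
    (3 ≤ U.card → w * (w - 1) + 2 * U.card + 2 ≤ e2 C R + 2 * w)

/-- **TWO** (100 lines). The case `|U| = 2`.
Proof. `R` misses at most `w - 2` edges. At most one vertex `v` of `R` is low (`dg R v ≤ 2`): by `miss_two` two low vertices would give
`2 ((w - 3) + (w - 3)) ≤ 2 (w - 2) + 2`. Every vertex of `R` has a neighbour in `R` (`miss_one`: otherwise
`w - 1 ≤ w - 2`). Choose `y ∈ R \ {x, x'}`: if some `v0 ∈ R \ {x, x'}` is low, `y = v0`; otherwise let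
`g, g'` be neighbours of `x, x'` in `R`, and `y ∈ R \ {x, x', g, g'}` (`|R| ≥ 5`). In both cases with `X = R - y`:
every `v ∈ X \ {x, x'}` is not low, so `dg X v ≥ 2` (`dg_le_erase`), and `dg X x, dg X x' ≥ 1` (in the first case `x, x'` are not low).
`P = {u1, u2} ∪ X`, `|P| = w + 1` (`u1, u2 ∉ R`): `u1`: neighbours `u2`, `x`; `u2`: `u1`, `x'`; `x`: `u1` and one in `X`;
`x'`: `u2` and one in `X`. -/
def SpecTWO : Prop := ∀ (V : Type) [DecidableEq V] (C : SimpleGraph V) (w : ℕ) (R : Finset V)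
  (u1 u2 x x' : V), 5 ≤ w → R.card = w → w * (w - 1) + 4 ≤ e2 C R + 2 * w → u1 ∉ R → u2 ∉ R → u1 ≠ u2 →
  C.Adj u1 u2 → x ∈ R → x' ∈ R → C.Adj u1 x → C.Adj u2 x' → ∃ P : Finset V, P.card = w + 1 ∧ Core C P

/-- **THR** (100 lines; hypothesis SpecLG). The case `3 ≤ |U| ≤ w - 2`.
Proof. `t = |U|`, `q = w + 1 - t ≥ 3`. `R` misses `r ≤ q - 2` edges. LG with `Z = {x, x'}` and size `q`: the second
alternative says `r ≥ (w + 1 - q) (q - 2) = t (q - 2) > q - 2`, false. So there is `X` with `x, x' ∈ X ⊆ R`,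
`|X| = q`, all `v ∈ X \ {x, x'}` with `dg X v ≥ 2`. `P = U ∪ X`, `|P| = w + 1`. `u1`: one neighbour in `U`
and `x`; `u2` the same; the other `u ∈ U` have two in `U`. If `x = x'`: it has the neighbours `u1, u2`. If `x ≠ x'`: `x` has the
neighbour `u1`, and one in `X`: by `miss_one` and `miss_mono` it misses at most `r ≤ q - 2` vertices of `X`, so
`dg X x ≥ q - 1 - (q - 2) = 1`; the same for `x'`. (Use `dg_union`.) -/
def SpecTHR : Prop := ∀ (V : Type) [DecidableEq V] (C : SimpleGraph V) (w : ℕ) (R U : Finset V)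
  (u1 u2 x x' : V), 5 ≤ w → R.card = w → Disjoint R U → 3 ≤ U.card → U.card + 2 ≤ w →
  w * (w - 1) + 2 * U.card + 2 ≤ e2 C R + 2 * w → u1 ∈ U → u2 ∈ U → u1 ≠ u2 →
  1 ≤ dg C U u1 → 1 ≤ dg C U u2 → (∀ u ∈ U, u ≠ u1 → u ≠ u2 → 2 ≤ dg C U u) →
  x ∈ R → x' ∈ R → C.Adj u1 x → C.Adj u2 x' → ∃ P : Finset V, P.card = w + 1 ∧ Core C P

/-- **FOU** (40 lines). The case `|U| = w - 1`, `R` complete, `x ≠ x'`: `P = U ∪ {x, x'}` is a core. -/
def SpecFOU : Prop := ∀ (V : Type) [DecidableEq V] (C : SimpleGraph V) (R U : Finset V)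
  (u1 u2 x x' : V), Disjoint R U → u1 ∈ U → u2 ∈ U → u1 ≠ u2 →
  1 ≤ dg C U u1 → 1 ≤ dg C U u2 → (∀ u ∈ U, u ≠ u1 → u ≠ u2 → 2 ≤ dg C U u) →
  x ∈ R → x' ∈ R → x ≠ x' → C.Adj x x' → C.Adj u1 x → C.Adj u2 x' →
  ∃ P : Finset V, P.card = U.card + 2 ∧ Core C P

/-- **FB** (120 lines). The explicit partitions (b), `R` complete. `D' = D - z0`.
Proof. `zs ≠ x`: `A = (R - x) + z0`, `B = D' + x`. `A`: `R - x` is complete with at least two vertices, `z0` is adjacent to
`zs ∈ R - x`. `B`: `D'` has no isolated vertex, `x` is adjacent to `u1 ∈ D'`.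
`zs = x`: choose `b1 ≠ b2` in `R - x`, `A = {z0, x, u1} ∪ (R - {x, b1, b2})` and `B = (D' - u1) ∪ {b1, b2}`:
in `A` all are adjacent to `x` (and `x` to `z0`); in `B` the vertices of `D' - u1` have a neighbour there, and `b1, b2` are adjacent. -/
def SpecFB : Prop := ∀ (V : Type) [DecidableEq V] (C : SimpleGraph V) (w : ℕ) (R D : Finset V)
  (z0 zs u1 x : V), 5 ≤ w → R.card = w → D.card = w → Disjoint R D →
  (∀ a ∈ R, ∀ b ∈ R, a ≠ b → C.Adj a b) → z0 ∈ D → zs ∈ R → C.Adj z0 zs → u1 ∈ D.erase z0 → x ∈ R →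
  C.Adj u1 x → (∀ v ∈ D.erase z0, 1 ≤ dg C (D.erase z0) v) →
  (∀ v ∈ (D.erase z0).erase u1, 1 ≤ dg C ((D.erase z0).erase u1) v) → Bal C w R D

/-- **MK5** (hypotheses SpecLG, SpecEP). `MAKE` for `w = 5`.
Proof. `e2 R + e2 D + 2 Σ = 32`, `Σ ≤ 5`. If `R`, `D` have no isolated vertices: (b). Lemma K: if `H`, `|H| = 5`, has no core of
size 3 and `e2 H = 12` then `H` is a core and any two vertices of `H` are in a core of size 4 inside `H` (for each `t ∈ H` EP for `H - t`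
gives `e2 (H - t) ≤ 8`, so `dg H t ≥ 2`; as `∑ (dg - 2) = 2` at least three vertices have degree 2; for such a `t`
`e2 (H - t) = 8`, so `H - t` is a core by EP).
`D` has an isolated vertex `z0`, `D' = D - z0`, `e2 D' ≤ 12`. If `R` has a core of size 3 then `D'` has none, so the only nonempty
core in `D'` is `D'`: `Sit2` as in MAKE. If `R` has none: `e2 R ≤ 12` (Mantel). `e2 R = 12`: by K and `noA` there are no adjacent
`x, y ∈ D'` which both have neighbours in `R`; but at most `e2 D' / 2 - 5` vertices of `D` have no neighbour in `R`, and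
`D'` has at least five edges, six if there is such a vertex. `e2 R ≤ 10`: `e2 D' = 12`, `Σ = 5`; `D'` with a neighbour in `R` of one of its
vertices and a further vertex of `R` contradicts `hmax`.
`D` has none, `R` has one, `z`; `R' = R - z`, `e2 R' ≥ 10`, so `R'` has a core of size 3 (LG) and `D` has none, `e2 D ≤ 12`.
`e2 D = 12`: `D` is a core, so every `x ∈ R` has at most one neighbour in `D` (`noA`); so there are adjacent `x, x' ∈ R'` with
neighbours `u ≠ u'` in `D`; by K a core of size 4 in `D` with `u, u'`, contradiction. `e2 D = 10`: `R'` is complete and all `u ∈ D` have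
exactly one neighbour in `R`. As in ISR there are no adjacent `u, u'` which are both adjacent to `z` or both not. Let `Dz` be the set of the
neighbours of `z` in `D`, `Do = D \ Dz`; there are 5 edges between them, so `|Dz|` is 2 or 3. If `|Do| = 2`: `D + z` is a core. If
`|Dz| = 2`: `Dz = {u1, u2}` have two common neighbours `p, q` in `Do`. If `p, q` have the same neighbour `y ∈ R'`: `{z, u1, u2, p, q, y}` is
a core, otherwise `{u1, u2, p, q, y, y'}`. -/
def SpecMK5 : Prop := ∀ (V : Type) [DecidableEq V] (C : SimpleGraph V) (R D : Finset V),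
  Sit C 5 R D → Bal C 5 R D ∨ ∃ (z0 : V) (D' : Finset V), Sit2 C 5 R D z0 D'

/-- **MAKE** (90 lines; hypotheses SpecKEY, SpecEP, SpecED, SpecISR, SpecMK5). `Sit` gives (b) or `Sit2`.
Proof. If `R` and `D` have no isolated vertices take `A = R`, `B = D`. Otherwise KEY: a nonempty core `X ⊆ D` has `|X| ≥ w - 1`. ED:
`e2 D ≤ 2 w`. ISR: `R` has no isolated vertex. If `D` has none either, `A = R`, `B = D`. Otherwise
`z0 ∈ D`, `dg D z0 = 0`, `D' = D.erase z0`; EP for `D'` gives `cores`, `eD'`, `eC`, and `cnt` is `h3` (`e2 D = e2 D' + 2 * 0`). -/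
def SpecMAKE : Prop := ∀ (V : Type) [DecidableEq V] (C : SimpleGraph V) (w : ℕ) (R D : Finset V),
  Sit C w R D → Bal C w R D ∨ ∃ (z0 : V) (D' : Finset V), Sit2 C w R D z0 D'

/-- **FIN** (120 lines; hypotheses SpecMGA, SpecMGB, SpecBND, SpecTWO, SpecTHR, SpecFOU, SpecFB). `Sit2` gives (b).
Proof. `U` from MGA; MGB. Case (1): `R` complete (`adj_of_full`), `u1 ∈ D'` with a neighbour `x ∈ R`, `z0` with a neighbour `zs ∈ R`
(`one_le_dg_iff`); `D'` core, so no isolated vertices in `D'` and in `D' - u1` (`dg_le_erase`): FB.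
Case (2): `x, x'` = neighbours of `u1, u2` in `R`. BND. `|U| ≥ 2` as `u1 ≠ u2`, `|U| ≤ |D'| = w - 1`.
`|U| = 2`: `U = {u1, u2}`, `dg U u1 = 1` gives `C.Adj u1 u2`: TWO contradicts `noA`. `3 ≤ |U| ≤ w - 2`: THR
contradicts `noA`. `|U| = w - 1`: `U = D'`, by BND `w (w - 1) ≤ e2 R`, so `R` is complete; `cnt` with `e2 D' = 2 |U| - 2 = 2 w - 4`
and `∑ = 2` gives `dg R z0 = 1`. `x ≠ x'`: FOU contradicts `noA`. `x = x'`: FB with `u1`: `D'` has no isolated vertex (degrees
1, 1, 2, .., 2), and `D' - u1` neither: a vertex `v` of `D' - u1` which is not adjacent to `u1` keeps its degree; if `v` is adjacent to `u1`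
then `v ≠ u2` (otherwise `{u1, u2}` is a good set of size `2 < w - 1`), so it has degree `2 - 1 = 1` left. -/
def SpecFIN : Prop := ∀ (V : Type) [DecidableEq V] (C : SimpleGraph V) (w : ℕ) (R D : Finset V) (z0 : V)
  (D' : Finset V), Sit2 C w R D z0 D' → Bal C w R D

/-- **CPL** (40 lines; hypotheses SpecEXT, SpecMAKE, SpecFIN). The theorem for the complement graph. -/
def SpecCPL : Prop := ∀ (V : Type) [Fintype V] [DecidableEq V] (C : SimpleGraph V) (w : ℕ), 5 ≤ w →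
  Fintype.card V = 2 * w → e2 C univ = w * (w + 1) + 2 →
  (∃ P : Finset V, P.card = w + 1 ∧ Core C P) ∨
  (∃ A B : Finset V, A ∪ B = univ ∧ Disjoint A B ∧ A.card = w ∧ B.card = w ∧
    (∀ v ∈ A, 1 ≤ dg C A v) ∧ (∀ v ∈ B, 1 ≤ dg C B v))

/-- **GRA** (150 lines; hypothesis SpecCPL). The theorem for graphs with at most `e(n)` edges on `2 n + 2` vertices.
Proof. Extend `G` to a graph `G'` with exactly `e(n)` edges (`e(n) ≤ C(2 n + 2, 2)`; `Finset.exists_subsuperset_card_eq` for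
edge sets, `SimpleGraph.fromEdgeSet`). `C = G'ᶜ`, `w = n + 1`: twice the number of edges of `C` is
`(2 n + 2) (2 n + 1) - 2 e(n) = w (w + 1) + 2`. For a part `S` and `v ∈ S` the number of `G'`-neighbours of `v` in `S` is
`|S| - 1 - dg C S v`. In case (a) take the parts `P` and `univ \ P` (of size `n`: at most `n - 1` neighbours), in case (b) `A` and `B`. `B` is
the graph of the edges of `G` between the parts, `D` the rest (see `Results/MP_270b6b_co/NThree.lean` for this last step). -/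
def SpecGRA : Prop := ∀ (n : ℕ), 4 ≤ n → ∀ G : SimpleGraph (Fin (2 * n + 2)),
  G.edgeSet.ncard ≤ (2 * n + 1).choose 2 - n.choose 2 - 1 →
  ∃ B D : SimpleGraph (Fin (2 * n + 2)), B.Colorable 2 ∧ (∀ v, (D.neighborSet v).ncard ≤ n - 1) ∧ G = B ⊔ D

end Pool.Agent.Lib.MP_270b6b_co.MC
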